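import Pool.Agent.H94.Magic.Basic

/-!
# The classical example: `n` states, `2^(n-1)` quotients

`L = {u : the (n-1)-st letter from the end of u is 1}`, i.e. `n ≤ |u|+1`… For `n ≥ 2`: `u = s ++ 1 :: t` with `t.length = n - 2`; for
`n = 1` take `L = Σ^*` (one quotient) (`good_one`).
NFA on `Fin n`: start `{0}`, `0 –c→ 0`, `0 –1→ 1`, `i –c→ i+1` for `1 ≤ i < n-1`, accept `{n-1}`.
Fooling set: `x 0 = []`, `y 0 = 1 :: 0^(n-2)`, `x i = 1 :: 0^(i-1)`, `y i = 0^(n-1-i)` for `i ≥ 1`.
Quotients: determined by the last `n-1` letters (padded with zeros on the left), all `2^(n-1)` possibilities occur and are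
different.  E.g. via `card_of_codes` with `G = Finset.univ : Finset (Fin (n-1) → Bool)` or with the sets `S ∋ 0`.
-/

set_option autoImplicit false

namespace Pool.Agent.H94.Magic

/-- the automaton of the classical example, `m + 2` states -/
def clM (m : ℕ) : NFA (Fin 2) (Fin (m + 2)) where
  step i c := {j | (i.val = 0 ∧ j.val = 0) ∨ (i.val = 0 ∧ c = 1 ∧ j.val = 1) ∨
    (1 ≤ i.val ∧ j.val = i.val + 1)}
  start := {0}
  accept := {j | j.val = m + 1}

theorem clM_eval (m : ℕ) (u : List (Fin 2)) (j : Fin (m + 2)) :
    j ∈ (clM m).eval u ↔ j.val = 0 ∨ (1 ≤ j.val ∧ u.reverse[j.val - 1]? = some 1) := by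
  induction u using List.reverseRecOn generalizing j with
  | nil =>
    change j ∈ ({0} : Set (Fin (m + 2))) ↔ _
    rw [Set.mem_singleton_iff]
    constructor
    · intro h; left; rw [h]; rfl
    · rintro (h | ⟨_, h⟩)
      · exact Fin.ext h
      · rw [List.reverse_nil, List.getElem?_nil] at h
        exact absurd h (by simp)
  | append_singleton u a ih =>
    rw [NFA.eval_append_singleton, NFA.mem_stepSet]
    constructor
    · rintro ⟨t, ht, h⟩
      rw [ih] at ht
      rcases h with ⟨h1, h2⟩ | ⟨h1, h2, h3⟩ | ⟨h1, h2⟩
      · left; exact h2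
      · right
        refine ⟨by omega, ?_⟩
        rw [h3, List.reverse_append, h2]
        simp
      · right
        refine ⟨by omega, ?_⟩
        rcases ht with ht | ⟨ht1, ht2⟩
        · omega
        · have e : j.val - 1 = (t.val - 1) + 1 := by omega
          rw [e, List.reverse_append, List.reverse_singleton, List.singleton_append,
            List.getElem?_cons_succ]
          exact ht2
    · rintro (h | ⟨h1, h2⟩)
      · exact ⟨0, (ih 0).2 (Or.inl rfl), Or.inl ⟨rfl, h⟩⟩
      · rw [List.reverse_append, List.reverse_singleton, List.singleton_append] at h2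
        rcases Nat.eq_or_lt_of_le h1 with h3 | h3
        · rw [← h3] at h2
          simp only [Nat.sub_self, List.getElem?_cons_zero, Option.some.injEq] at h2
          exact ⟨0, (ih 0).2 (Or.inl rfl), Or.inr (Or.inl ⟨rfl, h2, h3.symm⟩)⟩
        · have e : j.val - 1 = (j.val - 2) + 1 := by omega
          rw [e, List.getElem?_cons_succ] at h2
          refine ⟨⟨j.val - 1, by omega⟩, (ih _).2 (Or.inr ⟨?_, ?_⟩), Or.inr (Or.inr ⟨?_, ?_⟩)⟩
          · change 1 ≤ j.val - 1; omega
          · change u.reverse[j.val - 1 - 1]? = some 1
            have e2 : j.val - 1 - 1 = j.val - 2 := by omega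
            rw [e2]; exact h2
          · change 1 ≤ j.val - 1; omega
          · change j.val = j.val - 1 + 1; omega

theorem clM_accepts (m : ℕ) (u : List (Fin 2)) :
    u ∈ (clM m).accepts ↔ u.reverse[m]? = some 1 := by
  have h : u ∈ (clM m).accepts ↔ ∃ s ∈ (clM m).accept, s ∈ (clM m).eval u := Iff.rfl
  rw [h]
  constructor
  · rintro ⟨s, hs, h⟩
    rw [clM_eval] at h
    have hs' : s.val = m + 1 := hs
    rcases h with h | ⟨_, h⟩
    · omega
    · rw [hs'] at h; simpa using h
  · intro h
    refine ⟨⟨m + 1, by omega⟩, rfl, ?_⟩
    rw [clM_eval]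
    right
    exact ⟨Nat.le_add_left _ _, by simpa using h⟩

/-- quotients by codes -/
def clQ (m : ℕ) (f : Fin (m + 1) → Bool) : Set (List (Fin 2)) :=
  {w | if h : w.length ≤ m then f ⟨m - w.length, by omega⟩ = true else w.reverse[m]? = some 1}

theorem clQ_inj (m : ℕ) : Function.Injective (clQ m) := by
  intro f g h
  funext i
  have h1 : List.replicate (m - i.val) (0 : Fin 2) ∈ clQ m f ↔
      List.replicate (m - i.val) (0 : Fin 2) ∈ clQ m g := by rw [h]
  have hi : i.val ≤ m := by omega
  have key : ∀ f : Fin (m + 1) → Bool,
      (List.replicate (m - i.val) (0 : Fin 2) ∈ clQ m f ↔ f i = true) := by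
    intro f
    unfold clQ
    rw [Set.mem_ofPred_eq, dif_pos (by rw [List.length_replicate]; omega)]
    have e : (⟨m - (List.replicate (m - i.val) (0 : Fin 2)).length, by omega⟩ : Fin (m + 1)) = i := by
      rw [Fin.ext_iff]
      simp only [List.length_replicate]
      omega
    rw [e]
  rw [key f, key g] at h1
  exact Bool.eq_iff_iff.2 h1

theorem clQ_range (m : ℕ) : Set.range (fun u : List (Fin 2) =>
      ({w : List (Fin 2) | u ++ w ∈ (clM m).accepts} : Set (List (Fin 2)))) =
      Set.range (clQ m) := by
  have key : ∀ (u : List (Fin 2)) (f : Fin (m + 1) → Bool),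
      (∀ i : Fin (m + 1), f i = true ↔ u.reverse[i.val]? = some 1) →
      ({w : List (Fin 2) | u ++ w ∈ (clM m).accepts} : Set (List (Fin 2))) = clQ m f := by
    intro u f hf
    ext w
    rw [Set.mem_ofPred_eq, clM_accepts, clQ, Set.mem_ofPred_eq, List.reverse_append]
    by_cases h : w.length ≤ m
    · rw [dif_pos h, hf, List.getElem?_append_right (by rw [List.length_reverse]; exact h),
        List.length_reverse]
    · rw [dif_neg h, List.getElem?_append_left (by rw [List.length_reverse]; omega)]
  ext S
  constructor
  · rintro ⟨u, rfl⟩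
    refine ⟨fun i => decide (u.reverse[i.val]? = some 1), ?_⟩
    exact (key u _ (fun i => by simp)).symm
  · rintro ⟨f, rfl⟩
    refine ⟨(List.ofFn (fun i => if f i then (1 : Fin 2) else 0)).reverse, ?_⟩
    apply key
    intro i
    rw [List.reverse_reverse, List.getElem?_ofFn, dif_pos i.isLt]
    by_cases hfi : f i = true
    · simp [hfi]
    · simp [hfi]

theorem nonMagic_half (n : ℕ) (hn : 1 ≤ n) : NonMagic n (2 ^ (n - 1)) := by
  rcases Nat.eq_or_lt_of_le hn with h | h
  · rw [← h]; exact good_one.nonMagic
  · obtain ⟨m, rfl⟩ : ∃ m, n = m + 2 := ⟨n - 2, by omega⟩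
    refine ⟨clM m, ⟨0, rfl⟩, ?_, ?_⟩
    · intro k hk N hN
      let x : Fin (m + 2) → List (Fin 2) := fun i =>
        if i.val = 0 then [] else 1 :: List.replicate (i.val - 1) 0
      let y : Fin (m + 2) → List (Fin 2) := fun i =>
        if i.val = 0 then 1 :: List.replicate m 0 else List.replicate (m + 1 - i.val) 0
      have hx : ∀ i, (x i).length = i.val := by
        intro i
        by_cases h : i.val = 0
        · simp only [x, if_pos h, h]; rfl
        · simp only [x, if_neg h, List.length_cons, List.length_replicate]; omega
      have hy : ∀ i : Fin (m + 2), (y i).length = m + 1 - i.val := by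
        intro i
        by_cases h : i.val = 0
        · simp only [y, if_pos h, h, List.length_cons, List.length_replicate]; omega
        · simp only [y, if_neg h, List.length_replicate]
      have hlt : ∀ i j : Fin (m + 2), i.val < j.val → x i ++ y j ∉ (clM m).accepts := by
        intro i j hij hacc
        rw [clM_accepts] at hacc
        have hl : (x i ++ y j).reverse.length ≤ m := by
          rw [List.length_reverse, List.length_append, hx, hy]
          omega
        rw [List.getElem?_eq_none hl] at hacc
        exact absurd hacc (by simp)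
      have := fooling (clM m) N x y ?_ ?_ hN
      · simp only [Fintype.card_fin] at this
        omega
      · intro i
        have e : x i ++ y i = 1 :: List.replicate m 0 := by
          by_cases h : i.val = 0
          · simp only [x, y, if_pos h]; rfl
          · simp only [x, y, if_neg h, List.cons_append, List.replicate_append_replicate]
            congr 2; omega
        rw [e, clM_accepts, List.reverse_cons, List.reverse_replicate,
          List.getElem?_append_right (by rw [List.length_replicate]), List.length_replicate]
        simp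
      · intro i j hij
        rcases lt_or_gt_of_ne (fun e => hij (Fin.ext e) : i.val ≠ j.val) with h | h
        · left; exact hlt i j h
        · right; exact hlt j i h
    · rw [clQ_range, Nat.card_range_of_injective (clQ_inj m)]
      simp

end Pool.Agent.H94.Magic
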