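import Pool.Agent.H94.Magic.Basic

/-!
# Small tables

The chain class: `n` states, `a(i) = {i+1}` for `i + 1 < n`, `a(n-1) = ∅`, `b(i) ⊆ {0, …, i+1}` given by a bit mask,
start `{0}`, accepting `{n-1}`.  From a set `S` the word `a^(n-1-i)` is accepted iff `i ∈ S`, so different sets have
different languages and the number of quotients is the number of reachable sets.  `ℓ = n - 1`, `v = a^(n-1)`,
`x i = a^i`, `y i = a^(n-1-i)`, and every nonempty reachable set accepts some `a^(n-1-i)` (length `≤ ℓ`);
`ℓ` is the minimal length because each letter increases the position by at most one.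

Tables (n, α): masks of b(0), …, b(n-1); the reachable sets (as bit masks, in breadth first order, every set after the first
is a successor of an earlier one):
(4,5): [0,0,0,0]; sets [1,2,0,4,8]
(4,6): [2,0,12,4]; sets [1,2,4,0,8,12]
(4,7): [0,4,4,6]; sets [1,2,0,4,8,6,12]
(5,9): [0,4,0,0,5]; sets [1,2,0,4,8,16,5,10,20]
(5,10): [0,6,6,22,6]; sets [1,2,0,4,6,8,12,16,22,24]
(5,11): [1,1,1,5,8]; sets [1,2,4,8,16,5,0,10,20,9,18]
(5,12): [1,6,6,31,6]; sets [1,2,4,6,8,12,16,31,24,0,30,28]
(5,13): [0,4,2,4,19]; sets [1,2,0,4,8,16,19,6,23,12,14,24,28]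
(5,14): [2,2,13,16,8]; sets [1,2,4,8,13,16,26,31,0,20,30,28,24,29]
(5,15): [3,4,0,10,12]; sets [1,2,3,4,6,7,8,0,12,14,16,10,24,28,20]
(6,20): [0,4,10,28,50,40]; sets [1,2,0,4,8,10,16,28,20,32,50,56,62,40,58,36,48,60,52,42]
(6,21): [1,4,6,15,46,10]; sets [1,2,4,8,6,16,15,12,32,46,30,24,0,10,28,60,47,48,20,56,40]
(6,23): [1,1,14,10,30,20]; sets [1,2,4,8,14,16,10,28,15,32,30,20,11,56,0,60,31,40,22,48,62,44,24]
(6,28): [3,1,1,12,30,53]; sets [1,2,3,4,6,8,12,16,24,13,32,30,48,26,15,0,53,60,31,63,52,42,56,62,40,20,61,58]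
(7,40): [1,1,12,17,38,53,53]; sets [1,2,4,8,12,16,17,24,29,32,38,34,39,48,55,58,63,64,53,76,61,68,78,96,110,116,126,0,106,122,28,92,104,124,84,56,80,120,40,112]
(7,42): [2,7,15,21,15,32,35]; sets [1,2,4,7,8,15,14,16,21,30,31,28,32,42,60,62,56,64,84,55,120,63,124,112,0,35,40,47,110,126,96,70,39,80,53,94,92,12,78,106,24,48]
(7,53): [3,2,5,21,30,19,41]; sets [1,2,3,4,6,8,5,12,7,16,21,10,24,14,32,30,42,31,20,23,48,28,64,19,60,84,62,40,46,96,56,0,41,38,120,63,124,80,92,59,112,82,76,126,118,36,61,108,72,122,88,116,104]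

Suggestion: prove a general lemma `good_chain` for masks `b : List ℕ` whose hypotheses are decidable (`b i < 2^(i+2)`, the list `L` of sets
starts with 1, is `Nodup`, closed under both letters, every element after the first is a successor of an
earlier one) and use `by decide` (with `Nat.testBit`, `|||`, `%`, which the kernel evaluates fast).  `card_of_codes` of
`Basic.lean` does the counting (`dec c = {q | c.testBit q}`).
-/

set_option autoImplicit false

namespace Pool.Agent.H94.Magic

/-- chain automaton: letter `0` is the shift, letter `1` is given by the masks `b` -/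
def chM (N : ℕ) (b : List ℕ) : NFA (Fin 2) (Fin (N + 1)) where
  step i c := {j | (c = 0 ∧ j.val = i.val + 1) ∨ (c = 1 ∧ (b.getD i.val 0).testBit j.val = true)}
  start := {0}
  accept := {j | j.val = N}

/-- shift on codes -/
def ta (N c : ℕ) : ℕ := (c <<< 1) % 2 ^ (N + 1)

/-- letter `1` on codes -/
def tbf (b : List ℕ) (c : ℕ) : List ℕ → ℕ → ℕ
  | [], acc => acc
  | i :: l, acc => tbf b c l (if c.testBit i then acc ||| b.getD i 0 else acc)

def tb (N : ℕ) (b : List ℕ) (c : ℕ) : ℕ := tbf b c (List.range (N + 1)) 0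

/-- the set of states coded by `c` -/
def decS (N c : ℕ) : Set (Fin (N + 1)) := {q | c.testBit q.val = true}

theorem tbf_testBit (b : List ℕ) (c j : ℕ) : ∀ (l : List ℕ) (acc : ℕ),
    (tbf b c l acc).testBit j = true ↔
      acc.testBit j = true ∨ ∃ i ∈ l, c.testBit i = true ∧ (b.getD i 0).testBit j = true
  | [], acc => by simp [tbf]
  | i :: l, acc => by
    rw [tbf, tbf_testBit b c j l]
    by_cases h : c.testBit i = true
    · rw [if_pos h, Nat.testBit_or, Bool.or_eq_true]
      simp only [List.mem_cons, exists_eq_or_imp, h, true_and]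
      tauto
    · rw [if_neg h]
      simp only [List.mem_cons, exists_eq_or_imp, h, false_and, false_or]
      simp

theorem stepSet_zero (N : ℕ) (b : List ℕ) (c : ℕ) :
    (chM N b).stepSet (decS N c) 0 = decS N (ta N c) := by
  ext q
  rw [NFA.mem_stepSet]
  simp only [chM, decS, ta, Set.mem_ofPred_eq, Nat.testBit_mod_two_pow, Nat.testBit_shiftLeft,
    Bool.and_eq_true, decide_eq_true_eq]
  constructor
  · rintro ⟨t, ht, h | h⟩
    · refine ⟨q.2, by omega, ?_⟩
      rw [h.2, Nat.add_sub_cancel]
      exact ht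
    · exact absurd h.1 (by decide)
  · rintro ⟨h1, h2, h3⟩
    refine ⟨⟨q.val - 1, by omega⟩, h3, Or.inl ⟨trivial, ?_⟩⟩
    change q.val = q.val - 1 + 1
    omega

theorem stepSet_one (N : ℕ) (b : List ℕ) (c : ℕ) :
    (chM N b).stepSet (decS N c) 1 = decS N (tb N b c) := by
  ext q
  rw [NFA.mem_stepSet]
  simp only [chM, decS, tb, Set.mem_ofPred_eq, tbf_testBit, Nat.zero_testBit, List.mem_range]
  constructor
  · rintro ⟨t, ht, h | h⟩
    · exact absurd h.1 (by decide)
    · exact Or.inr ⟨t.val, t.2, ht, h.2⟩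
  · rintro (h | ⟨i, hi, h1, h2⟩)
    · exact absurd h (by decide)
    · exact ⟨⟨i, hi⟩, h1, Or.inr ⟨trivial, h2⟩⟩

/-- every new element of the list is a successor of a known one -/
def reachOk (N : ℕ) (b : List ℕ) : List ℕ → List ℕ → Bool
  | _, [] => true
  | seen, c :: rest =>
    (seen.any fun d => ta N d == c || tb N b d == c) && reachOk N b (c :: seen) rest

/-- decidable hypotheses of the chain lemma -/
def chk (N : ℕ) (b L : List ℕ) : Bool :=
  ((List.range (N + 1)).all fun i => decide (b.getD i 0 < 2 ^ (i + 2))) &&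
  (L.all fun c => decide (c < 2 ^ (N + 1))) &&
  decide L.Nodup && L.contains 1 &&
  (L.all fun c => L.contains (ta N c) && L.contains (tb N b c)) &&
  (match L with
    | [] => false
    | c :: rest => decide (c = 1) && reachOk N b [c] rest)

theorem evalFrom_rep (N : ℕ) (b : List ℕ) (k : ℕ) (S : Set (Fin (N + 1))) (q : Fin (N + 1)) :
    q ∈ (chM N b).evalFrom S (List.replicate k 0) ↔
      ∃ t ∈ S, q.val = t.val + k := by
  induction k generalizing S with
  | zero => simp [Fin.val_inj]
  | succ k ih =>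
    rw [List.replicate_succ, NFA.evalFrom_cons, ih]
    constructor
    · rintro ⟨t, ht, h⟩
      rw [NFA.mem_stepSet] at ht
      obtain ⟨r, hr, h1 | h1⟩ := ht
      · exact ⟨r, hr, by rw [h, h1.2]; ring⟩
      · exact absurd h1.1 (by decide)
    · rintro ⟨t, ht, h⟩
      have hlt : t.val + 1 < N + 1 := by have := q.2; omega
      refine ⟨⟨t.val + 1, hlt⟩, ?_, by rw [h]; ring⟩
      rw [NFA.mem_stepSet]
      exact ⟨t, ht, Or.inl ⟨rfl, rfl⟩⟩

theorem acc_rep (N : ℕ) (b : List ℕ) (k : ℕ) (S : Set (Fin (N + 1))) :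
    List.replicate k 0 ∈ (chM N b).acceptsFrom S ↔ ∃ t ∈ S, t.val + k = N := by
  rw [NFA.mem_acceptsFrom]
  constructor
  · rintro ⟨s, hs, h⟩
    rw [evalFrom_rep] at h
    obtain ⟨t, ht, h2⟩ := h
    exact ⟨t, ht, by rw [← h2]; exact hs⟩
  · rintro ⟨t, ht, h⟩
    refine ⟨⟨N, by omega⟩, rfl, ?_⟩
    rw [evalFrom_rep]
    exact ⟨t, ht, h.symm⟩

/-- positions increase by at most one -/
theorem evalFrom_le (N : ℕ) (b : List ℕ) (hb : ∀ i < N + 1, b.getD i 0 < 2 ^ (i + 2))
    (w : List (Fin 2)) (S : Set (Fin (N + 1))) (m : ℕ) (hS : ∀ t ∈ S, t.val ≤ m)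
    (q : Fin (N + 1)) (hq : q ∈ (chM N b).evalFrom S w) : q.val ≤ m + w.length := by
  induction w generalizing S m with
  | nil => exact hS q hq
  | cons a w ih =>
    rw [NFA.evalFrom_cons] at hq
    have h := ih ((chM N b).stepSet S a) (m + 1) ?_ hq
    · rw [List.length_cons]; omega
    · intro t ht
      rw [NFA.mem_stepSet] at ht
      obtain ⟨r, hr, h1 | h1⟩ := ht
      · rw [h1.2]
        exact Nat.succ_le_succ (hS r hr)
      · have h2 := hb r.val r.2
        have h3 := hS r hr
        by_contra h4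
        have h5 : r.val + 2 ≤ t.val := by omega
        have h6 : b.getD r.val 0 < 2 ^ t.val := h2.trans_le (Nat.pow_le_pow_right (by norm_num) h5)
        have h7 := Nat.testBit_lt_two_pow h6
        rw [h1.2] at h7
        exact Bool.noConfusion h7

theorem reach_all (N : ℕ) (b : List ℕ) : ∀ (rest seen : List ℕ),
    (∀ c ∈ seen, ∃ u : List (Fin 2), (chM N b).eval u = decS N c) → reachOk N b seen rest = true →
    ∀ c ∈ rest, ∃ u : List (Fin 2), (chM N b).eval u = decS N c
  | [], _, _, _ => by simp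
  | c :: rest, seen, hs, h => by
    rw [reachOk, Bool.and_eq_true, List.any_eq_true] at h
    obtain ⟨⟨d, hd, h1⟩, h2⟩ := h
    have hc : ∃ u : List (Fin 2), (chM N b).eval u = decS N c := by
      obtain ⟨u, hu⟩ := hs d hd
      rw [Bool.or_eq_true, beq_iff_eq, beq_iff_eq] at h1
      rcases h1 with h1 | h1
      · refine ⟨u ++ [0], ?_⟩
        rw [NFA.eval_append_singleton, hu, stepSet_zero, h1]
      · refine ⟨u ++ [1], ?_⟩
        rw [NFA.eval_append_singleton, hu, stepSet_one, h1]
    intro e he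
    rcases List.mem_cons.1 he with rfl | he
    · exact hc
    · refine reach_all N b rest (c :: seen) ?_ h2 e he
      intro f hf
      rcases List.mem_cons.1 hf with rfl | hf
      · exact hc
      · exact hs f hf

theorem decS_one (N : ℕ) : decS N 1 = ({0} : Set (Fin (N + 1))) := by
  ext q
  simp only [decS, Set.mem_ofPred_eq, Set.mem_singleton_iff]
  rw [Nat.testBit_one_eq_true_iff_self_eq_zero, Fin.ext_iff]
  rfl

theorem good_chain (N : ℕ) (b L : List ℕ) (h : chk N b L = true) : Good (N + 1) L.length := by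
  simp only [chk, Bool.and_eq_true, List.all_eq_true, decide_eq_true_eq, List.mem_range,
    List.contains_iff_mem] at h
  obtain ⟨⟨⟨⟨⟨hb, hlt⟩, hnd⟩, h1⟩, hcl⟩, hr⟩ := h
  have hreach : ∀ c ∈ L, ∃ u : List (Fin 2), (chM N b).eval u = decS N c := by
    cases L with
    | nil => simp
    | cons c rest =>
      simp only [Bool.and_eq_true, decide_eq_true_eq] at hr
      obtain ⟨rfl, hr⟩ := hr
      have hc : ∃ u : List (Fin 2), (chM N b).eval u = decS N 1 :=
        ⟨[], by rw [decS_one]; rfl⟩
      intro e he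
      rcases List.mem_cons.1 he with rfl | he
      · exact hc
      · exact reach_all N b rest [1] (by simpa using hc) hr e he
  have hstart : (chM N b).start = ({0} : Set (Fin (N + 1))) := rfl
  have hacc : ∀ k, List.replicate k 0 ∈ (chM N b).accepts ↔ k = N := by
    intro k
    change List.replicate k 0 ∈ (chM N b).acceptsFrom {0} ↔ k = N
    rw [acc_rep]
    simp
  have hmin : ∀ w ∈ (chM N b).accepts, N ≤ w.length := by
    rintro w ⟨s, hs, h⟩
    have h2 := evalFrom_le N b hb w {0} 0 (by simp) s h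
    have h3 : s.val = N := hs
    omega
  refine ⟨chM N b, N, List.replicate N 0, fun i => List.replicate i.val 0,
    fun i => List.replicate (N - i.val) 0, ⟨0, rfl⟩, ?_, hmin, (hacc N).2 rfl,
    List.length_replicate, ?_, ?_, ?_, ?_⟩
  · rw [card_of_codes (chM N b) L.toFinset (decS N)]
    · exact List.toFinset_card_of_nodup hnd
    · exact ⟨1, List.mem_toFinset.2 h1, decS_one N⟩
    · intro c hc a
      have hc' := hcl c (List.mem_toFinset.1 hc)
      fin_cases a
      · exact ⟨ta N c, List.mem_toFinset.2 hc'.1, (stepSet_zero N b c).symm⟩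
      · exact ⟨tb N b c, List.mem_toFinset.2 hc'.2, (stepSet_one N b c).symm⟩
    · intro c hc
      exact hreach c (List.mem_toFinset.1 hc)
    · intro c hc c' hc' heq
      have key : ∀ c c' : ℕ, (chM N b).acceptsFrom (decS N c) = (chM N b).acceptsFrom (decS N c') →
          ∀ j < N + 1, c.testBit j = true → c'.testBit j = true := by
        intro c c' heq j hj hcj
        have h2 : List.replicate (N - j) 0 ∈ (chM N b).acceptsFrom (decS N c) := by
          rw [acc_rep]
          exact ⟨⟨j, hj⟩, hcj, by change j + (N - j) = N; omega⟩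
        rw [heq, acc_rep] at h2
        obtain ⟨t, ht, h3⟩ := h2
        have h4 : t.val = j := by omega
        rw [← h4]
        exact ht
      refine Nat.eq_of_testBit_eq fun j => ?_
      by_cases hj : j < N + 1
      · have e1 := key c c' heq j hj
        have e2 := key c' c heq.symm j hj
        cases h5 : c.testBit j <;> cases h6 : c'.testBit j <;> simp_all
      · have h7 := hlt c (List.mem_toFinset.1 hc)
        have h8 := hlt c' (List.mem_toFinset.1 hc')
        have h9 : 2 ^ (N + 1) ≤ 2 ^ j := Nat.pow_le_pow_right (by norm_num) (by omega)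
        rw [Nat.testBit_lt_two_pow (h7.trans_le h9), Nat.testBit_lt_two_pow (h8.trans_le h9)]
  · rintro u ⟨w, hw⟩
    have h2 : w ∈ (chM N b).acceptsFrom ((chM N b).evalFrom {0} u) := by
      rw [← NFA.append_mem_acceptsFrom]
      exact hw
    have h3 : ((chM N b).evalFrom {0} u).Nonempty := by
      obtain ⟨s, hs, h4⟩ := h2
      rw [NFA.mem_evalFrom_iff_exists] at h4
      obtain ⟨t, ht, -⟩ := h4
      exact ⟨t, ht⟩
    obtain ⟨t, ht⟩ := h3
    refine ⟨List.replicate (N - t.val) 0, ?_, by rw [List.length_replicate]; omega⟩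
    change u ++ List.replicate (N - t.val) 0 ∈ (chM N b).acceptsFrom {0}
    rw [NFA.append_mem_acceptsFrom, acc_rep]
    exact ⟨t, ht, by have := t.2; omega⟩
  · intro i
    rw [← List.replicate_add]
    exact (hacc _).2 (by have := i.2; omega)
  · intro i j hij
    by_cases hlt2 : i.val < j.val
    · left
      intro h2
      have h3 := hmin _ h2
      simp only [List.length_append, List.length_replicate] at h3
      have := j.2
      omega
    · right
      intro h2
      have h3 := hmin _ h2
      simp only [List.length_append, List.length_replicate] at h3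
      have h4 : i.val ≠ j.val := fun h5 => hij (Fin.ext h5)
      have := i.2
      omega
  · intro i
    left
    rw [List.length_replicate]
    omega

theorem small4 (α : ℕ) (h1 : 5 ≤ α) (h2 : α ≤ 7) : Good 4 α := by
  interval_cases α
  · exact good_chain 3 [0,0,0,0] [1,2,0,4,8] (by decide +kernel)
  · exact good_chain 3 [2,0,12,4] [1,2,4,0,8,12] (by decide +kernel)
  · exact good_chain 3 [0,4,4,6] [1,2,0,4,8,6,12] (by decide +kernel)

theorem small5 (α : ℕ) (h1 : 9 ≤ α) (h2 : α ≤ 15) : Good 5 α := by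
  interval_cases α
  · exact good_chain 4 [0,4,0,0,5] [1,2,0,4,8,16,5,10,20] (by decide +kernel)
  · exact good_chain 4 [0,6,6,22,6] [1,2,0,4,6,8,12,16,22,24] (by decide +kernel)
  · exact good_chain 4 [1,1,1,5,8] [1,2,4,8,16,5,0,10,20,9,18] (by decide +kernel)
  · exact good_chain 4 [1,6,6,31,6] [1,2,4,6,8,12,16,31,24,0,30,28] (by decide +kernel)
  · exact good_chain 4 [0,4,2,4,19] [1,2,0,4,8,16,19,6,23,12,14,24,28] (by decide +kernel)
  · exact good_chain 4 [2,2,13,16,8] [1,2,4,8,13,16,26,31,0,20,30,28,24,29] (by decide +kernel)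
  · exact good_chain 4 [3,4,0,10,12] [1,2,3,4,6,7,8,0,12,14,16,10,24,28,20] (by decide +kernel)

theorem small6 (α : ℕ) (h : α = 20 ∨ α = 21 ∨ α = 23 ∨ α = 28) : Good 6 α := by
  rcases h with rfl | rfl | rfl | rfl
  · exact good_chain 5 [0,4,10,28,50,40]
      [1,2,0,4,8,10,16,28,20,32,50,56,62,40,58,36,48,60,52,42] (by decide +kernel)
  · exact good_chain 5 [1,4,6,15,46,10]
      [1,2,4,8,6,16,15,12,32,46,30,24,0,10,28,60,47,48,20,56,40] (by decide +kernel)
  · exact good_chain 5 [1,1,14,10,30,20]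
      [1,2,4,8,14,16,10,28,15,32,30,20,11,56,0,60,31,40,22,48,62,44,24] (by decide +kernel)
  · exact good_chain 5 [3,1,1,12,30,53]
      [1,2,3,4,6,8,12,16,24,13,32,30,48,26,15,0,53,60,31,63,52,42,56,62,40,20,61,58]
      (by decide +kernel)

theorem small7 (α : ℕ) (h : α = 40 ∨ α = 42 ∨ α = 53) : Good 7 α := by
  rcases h with rfl | rfl | rfl
  · exact good_chain 6 [1,1,12,17,38,53,53]
      [1,2,4,8,12,16,17,24,29,32,38,34,39,48,55,58,63,64,53,76,61,68,78,96,110,116,126,0,106,
        122,28,92,104,124,84,56,80,120,40,112] (by decide +kernel)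
  · exact good_chain 6 [2,7,15,21,15,32,35]
      [1,2,4,7,8,15,14,16,21,30,31,28,32,42,60,62,56,64,84,55,120,63,124,112,0,35,40,47,110,
        126,96,70,39,80,53,94,92,12,78,106,24,48] (by decide +kernel)
  · exact good_chain 6 [3,2,5,21,30,19,41]
      [1,2,3,4,6,8,5,12,7,16,21,10,24,14,32,30,42,31,20,23,48,28,64,19,60,84,62,40,46,96,56,0,
        41,38,120,63,124,80,92,59,112,82,76,126,118,36,61,108,72,122,88,116,104]
      (by decide +kernel)

end Pool.Agent.H94.Magic
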