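import Pool.Agent.H94.Magic.Arith
import Pool.Agent.H94.Magic.Small
import Pool.Agent.H94.Magic.Classical

/-!
# Assembly: every `α` with `n ≤ α ≤ 2^(n-1)` is attained (helper94 works on this file)
-/

set_option autoImplicit false

namespace Pool.Agent.H94.Magic

theorem good_self (n : ℕ) (hn : 1 ≤ n) : Good n n := by
  have := good_add good_one (n - 1)
  have e : 1 + (n - 1) = n := by omega
  rwa [e] at this

theorem pow_aux (j : ℕ) (hj : 3 ≤ j) : j + 5 ≤ 2 ^ j := by
  induction j, hj using Nat.le_induction with
  | base => norm_num
  | succ j hj ih =>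
    rw [pow_succ]
    omega

/-- the new values of level `k + 4` -/
theorem good_level (k : ℕ) (hk : 2 ≤ k) (α : ℕ) (h1 : 2 ^ (k + 2) + 1 ≤ α) (h2 : α < 2 ^ (k + 3)) :
    Good (k + 4) α := by
  obtain ⟨j, rfl⟩ : ∃ j, k = j + 1 := ⟨k - 1, by omega⟩
  have hlow := low (j + 1) hk
  have hmid := mid (j + 1) hk
  have hhigh := high (j + 1) hk
  rcases lt_or_ge j 3 with hj | hj
  · interval_cases j
    · omega
    · -- k = 2
      norm_num at h1 h2
      simp only [Nat.reduceAdd, Nat.reducePow, Nat.reduceMul, Nat.reduceSub] at hlow hmid hhigh ⊢
      have hs := small6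
      interval_cases α
      · exact hlow 1 (by norm_num)
      · exact hlow 2 (by norm_num)
      · exact hlow 3 (by norm_num)
      · exact hs 20 (by norm_num)
      · exact hs 21 (by norm_num)
      · exact hmid 0 (by norm_num) (by norm_num)
      · exact hs 23 (by norm_num)
      · exact hmid 2 (by norm_num) (by norm_num)
      · exact hmid 3 (by norm_num) (by norm_num)
      · exact hmid 4 (by norm_num) (by norm_num)
      · exact hhigh 0 (by norm_num) (by norm_num)
      · exact hs 28 (by norm_num)
      · exact hhigh 2 (by norm_num) (by norm_num)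
      · exact hhigh 3 (by norm_num) (by norm_num)
      · exact hhigh 4 (by norm_num) (by norm_num)
    · -- k = 3
      norm_num at h1 h2
      simp only [Nat.reduceAdd, Nat.reducePow, Nat.reduceMul, Nat.reduceSub] at hlow hmid hhigh ⊢
      have hs := small7
      by_cases h40 : α = 40 ∨ α = 42 ∨ α = 53
      · exact hs α h40
      · rcases lt_or_ge α 40 with h | h
        · have := hlow (α - 29) (by omega)
          have e : 29 + (α - 29) = α := by omega
          rwa [e] at this
        · rcases lt_or_ge α 53 with h' | h'
          · have := hmid (α - 41) (by omega) (by omega)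
            have e : 41 + (α - 41) = α := by omega
            rwa [e] at this
          · have := hhigh (α - 52) (by omega) (by omega)
            have e : 52 + (α - 52) = α := by omega
            rwa [e] at this
  · have hpj := pow_aux j hj
    have e1 : 2 ^ (j + 1) = 2 * 2 ^ j := by rw [pow_succ]; ring
    have e2 : 2 ^ (j + 1 + 1) = 4 * 2 ^ j := by rw [pow_succ, pow_succ]; ring
    have e3 : 2 ^ (j + 1 + 2) = 8 * 2 ^ j := by rw [pow_add, pow_succ]; ring
    have e4 : 2 ^ (j + 1 + 3) = 16 * 2 ^ j := by rw [pow_add, pow_succ]; ring
    have e5 : j + 1 - 1 = j := by omega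
    rw [e3] at h1
    rw [e4] at h2
    simp only [e1, e2, e5] at hlow hmid hhigh
    generalize 2 ^ j = t at *
    rcases lt_or_ge α (10 * t) with h | h
    · have := hlow (α - (3 * (2 * t) + (j + 1 + 2))) (by omega)
      have e : 3 * (2 * t) + (j + 1 + 2) + (α - (3 * (2 * t) + (j + 1 + 2))) = α := by omega
      rwa [e] at this
    · rcases le_or_gt α (13 * t) with h' | h'
      · have := hmid (α - (9 * t + (j + 1 + 2))) (by omega) (by omega)
        have e : 9 * t + (j + 1 + 2) + (α - (9 * t + (j + 1 + 2))) = α := by omega
        rwa [e] at this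
      · have := hhigh (α - (3 * (4 * t) + (j + 1 + 1))) (by omega) (by omega)
        have e : 3 * (4 * t) + (j + 1 + 1) + (α - (3 * (4 * t) + (j + 1 + 1))) = α := by omega
        rwa [e] at this

theorem good_all (n : ℕ) (hn : 4 ≤ n) : ∀ α : ℕ, n ≤ α → α < 2 ^ (n - 1) → Good n α := by
  induction n, hn using Nat.le_induction with
  | base =>
    intro α h1 h2
    norm_num at h2
    rcases Nat.lt_or_ge α 5 with h | h
    · have : α = 4 := by omega
      subst this
      exact good_self 4 (by norm_num)
    · exact small4 α h (by omega)
  | succ n hn ih =>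
    intro α h1 h2
    rw [Nat.add_sub_cancel] at h2
    rcases Nat.lt_or_ge (2 ^ (n - 1)) α with h | h
    · rcases Nat.lt_or_ge 4 n with h4 | h4
      · have := good_level (n - 3) (by omega) α
          (by rw [show n - 3 + 2 = n - 1 by omega]; omega)
          (by rw [show n - 3 + 3 = n by omega]; exact h2)
        rwa [show n - 3 + 4 = n + 1 by omega] at this
      · have : n = 4 := by omega
        subst this
        norm_num at h h2
        exact small5 α (by omega) (by omega)
    · have := good_succ (ih (α - 1) (by omega) (by omega))
      rwa [show α - 1 + 1 = α by omega] at this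

theorem nonMagic_all (n : ℕ) (hn : 1 ≤ n) (α : ℕ) (h1 : n ≤ α) (h2 : α ≤ 2 ^ (n - 1)) : NonMagic n α := by
  rcases Nat.lt_or_ge α (2 ^ (n - 1)) with h | h
  · rcases Nat.lt_or_ge n 4 with h4 | h4
    · interval_cases n
      · norm_num at h
        omega
      · norm_num at h
        omega
      · norm_num at h
        have : α = 3 := by omega
        subst this
        exact (good_self 3 (by norm_num)).nonMagic
    · exact (good_all n h4 α h1 h).nonMagic
  · have : α = 2 ^ (n - 1) := by omega
    subst this
    exact nonMagic_half n hn

end Pool.Agent.H94.Magic
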