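import Pool.Agent.H94.Magic.Gadget

/-!
# Arithmetic: which numbers are values of `cnt`

Everything follows from `gadget` by choosing `Q, t0, t1`.  Throughout `m = k + 2`.  `q` of level `l = m - q`.
Write `M_l = 2^(l+1) - l - 3`.

Configurations: `Q = Q₀ ∪ R` with `Q₀ ⊆ {0,1}` fixed, `R ⊆ [2, t0)`.  The value of a triple `(R, t0, t1)` is
`val = ∑_{q ∈ R} (2^(m-q) - 1) + ex(t0,t1)` where
* `t1 < m`: `ex = 2^(m-t0) - 2 - (m - 1 - t1)`;
* `t1 = m`: `ex = 2^(m-t0)` if `t0 ≤ m - 2` and `ex = 3` if `t0 = m - 1`.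
Then `cnt m (Q₀ ∪ R) t0 t1 = base(Q₀) + val` with `base {1} = 3*2^(m-2) + m`, `base {0} = 9*2^(m-3) + m`,
`base {0,1} = 3*2^(m-1) + m - 1`.

Call `(R,t0,t1)` an `l`-tail if `R ⊆ [m-l, t0)`, `m - l ≤ t0 ≤ m - 1`, `t0 ≤ t1 ≤ m`.

(low) Claim: for `1 ≤ l`, each `r ≤ M_l` is the value of an `l`-tail with `t1 ≤ m - 1`.  Induction on `l`:
`l = 1`: `r = 0`: `(∅, m-1, m-1)`.  Step `l → l+1` (new position `p = m - (l+1)` of level `l + 1`):
 `r ≤ M_l`: the same tail; `r ≥ 2^(l+1) - 1`: `(R ∪ {p}, t0, t1)` with a tail for `r - (2^(l+1) - 1) ≤ M_l`; otherwise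
 `2^(l+1) - l - 2 ≤ r ≤ 2^(l+1) - 2` and we take `(∅, p, m - 1 - (2^(l+1) - 2 - r))`.

(mid/high) Claim: for `2 ≤ l`, each `r ≤ M_l + 1` with `r ≠ 1` is the value of an `l`-tail with `m - 2 ∉ R` and
(`t0 = m - 1` or `t0 < t1`).  Induction on `l`: `l = 2`: `r = 0: (∅, m-1, m-1)`, `2: (∅, m-2, m-1)`,
`3: (∅, m-1, m)`, `4: (∅, m-2, m)`.  Step `l → l+1`, `p = m - (l+1)`: `r ≤ M_l + 1`: the same tail;
`r ≥ 2^(l+1) - 1`, `r ≠ 2^(l+1)`: add `p` to `R` in a tail for `r - (2^(l+1) - 1)` (`≠ 1`, `≤ M_l + 1`);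
`r = 2^(l+1)`: `(∅, p, m)`; otherwise `2^(l+1) - l - 1 ≤ r ≤ 2^(l+1) - 2` and we take
`(∅, p, m - 1 - (2^(l+1) - 2 - r))`.

Use `l = m - 2 = k`.  (Natural number subtraction: the statements below avoid it.)  All of this was checked by
computer for `m = 4, …, 8`.
-/

set_option autoImplicit false

namespace Pool.Agent.H94.Magic

theorem low_tail (m l : ℕ) (hl : 1 ≤ l) (hlm : l + 2 ≤ m) :
    ∀ r, r + l + 3 ≤ 2 ^ (l + 1) → ∃ (R : Finset ℕ) (t0 t1 : ℕ), (∀ q ∈ R, m ≤ q + l ∧ q < t0) ∧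
      m ≤ t0 + l ∧ t0 + 1 ≤ m ∧ t0 ≤ t1 ∧ t1 + 1 ≤ m ∧
      ∑ q ∈ R, (2 ^ (m - q) - 1) + 2 ^ (m - t0) + t1 = r + m + 1 := by
  induction l, hl using Nat.le_induction with
  | base =>
    intro r hr
    have hr0 : r = 0 := by
      have : (2 : ℕ) ^ (1 + 1) = 4 := by norm_num
      omega
    subst hr0
    refine ⟨∅, m - 1, m - 1, by simp, by omega, by omega, by omega, by omega, ?_⟩
    have h1 : m - (m - 1) = 1 := by omega
    rw [h1]
    simp
    omega
  | succ l hl ih =>
    intro r hr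
    have h2 : (2 : ℕ) ^ (l + 1 + 1) = 2 * 2 ^ (l + 1) := by ring
    by_cases hA : r + l + 3 ≤ 2 ^ (l + 1)
    · obtain ⟨R, t0, t1, hR, a1, a2, a3, a4, a5⟩ := ih (by omega) r hA
      exact ⟨R, t0, t1, fun q hq => ⟨by have := (hR q hq).1; omega, (hR q hq).2⟩, by omega, a2, a3,
        a4, a5⟩
    · by_cases hB : 2 ^ (l + 1) ≤ r + 1
      · obtain ⟨R, t0, t1, hR, a1, a2, a3, a4, a5⟩ := ih (by omega) (r + 1 - 2 ^ (l + 1)) (by omega)
        have hp : m - (l + 1) ∉ R := by
          intro h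
          have := (hR _ h).1
          omega
        refine ⟨insert (m - (l + 1)) R, t0, t1, ?_, by omega, a2, a3, a4, ?_⟩
        · intro q hq
          rcases Finset.mem_insert.1 hq with rfl | hq
          · constructor <;> omega
          · have := hR q hq
            constructor <;> omega
        · rw [Finset.sum_insert hp]
          have h3 : m - (m - (l + 1)) = l + 1 := by omega
          rw [h3]
          have h4 : 1 ≤ 2 ^ (l + 1) := Nat.one_le_two_pow
          omega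
      · refine ⟨∅, m - (l + 1), r + m + 1 - 2 ^ (l + 1), by simp, by omega, by omega, by omega,
          by omega, ?_⟩
        have h3 : m - (m - (l + 1)) = l + 1 := by omega
        rw [h3, Finset.sum_empty]
        omega

/-- the contribution of `t1` -/
def t1c (m t0 t1 : ℕ) : ℕ := t1 + (if t1 = m then (if t0 + 1 = m then 2 else 1) else 0)

theorem high_tail (m l : ℕ) (hl : 2 ≤ l) (hlm : l + 2 ≤ m) :
    ∀ r, r + l + 2 ≤ 2 ^ (l + 1) → r ≠ 1 → ∃ (R : Finset ℕ) (t0 t1 : ℕ),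
      (∀ q ∈ R, m ≤ q + l ∧ q < t0) ∧ m - 2 ∉ R ∧
      m ≤ t0 + l ∧ t0 + 1 ≤ m ∧ t0 ≤ t1 ∧ t1 ≤ m ∧ (t0 + 1 = m ∨ t0 < t1) ∧
      ∑ q ∈ R, (2 ^ (m - q) - 1) + 2 ^ (m - t0) + t1c m t0 t1 = r + m + 1 := by
  induction l, hl using Nat.le_induction with
  | base =>
    intro r hr hr1
    have h8 : (2 : ℕ) ^ (2 + 1) = 8 := by norm_num
    have hm1 : m - (m - 1) = 1 := by omega
    have hm2 : m - (m - 2) = 2 := by omega
    have hr' : r = 0 ∨ r = 2 ∨ r = 3 ∨ r = 4 := by omega
    rcases hr' with rfl | rfl | rfl | rfl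
    · refine ⟨∅, m - 1, m - 1, by simp, by simp, by omega, by omega, by omega, by omega, by omega,
        ?_⟩
      unfold t1c
      rw [hm1, if_neg (by omega), Finset.sum_empty]
      omega
    · refine ⟨∅, m - 2, m - 1, by simp, by simp, by omega, by omega, by omega, by omega, by omega,
        ?_⟩
      unfold t1c
      rw [hm2, if_neg (by omega), Finset.sum_empty]
      omega
    · refine ⟨∅, m - 1, m, by simp, by simp, by omega, by omega, by omega, by omega, by omega,
        ?_⟩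
      unfold t1c
      rw [hm1, if_pos rfl, if_pos (by omega), Finset.sum_empty]
      omega
    · refine ⟨∅, m - 2, m, by simp, by simp, by omega, by omega, by omega, by omega, by omega,
        ?_⟩
      unfold t1c
      rw [hm2, if_pos rfl, if_neg (by omega), Finset.sum_empty]
      omega
  | succ l hl ih =>
    intro r hr hr1
    have h2 : (2 : ℕ) ^ (l + 1 + 1) = 2 * 2 ^ (l + 1) := by ring
    by_cases hA : r + l + 2 ≤ 2 ^ (l + 1)
    · obtain ⟨R, t0, t1, hR, a0, a1, a2, a3, a4, a5, a6⟩ := ih (by omega) r hA hr1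
      exact ⟨R, t0, t1, fun q hq => ⟨by have := (hR q hq).1; omega, (hR q hq).2⟩, a0, by omega, a2,
        a3, a4, a5, a6⟩
    · have h3 : m - (m - (l + 1)) = l + 1 := by omega
      by_cases hE : r = 2 ^ (l + 1)
      · refine ⟨∅, m - (l + 1), m, by simp, by simp, by omega, by omega, by omega, le_rfl,
          by omega, ?_⟩
        unfold t1c
        rw [h3, if_pos rfl, if_neg (by omega), Finset.sum_empty]
        omega
      · by_cases hB : 2 ^ (l + 1) ≤ r + 1
        · obtain ⟨R, t0, t1, hR, a0, a1, a2, a3, a4, a5, a6⟩ := ih (by omega)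
            (r + 1 - 2 ^ (l + 1)) (by omega) (by omega)
          have hp : m - (l + 1) ∉ R := by
            intro h
            have := (hR _ h).1
            omega
          refine ⟨insert (m - (l + 1)) R, t0, t1, ?_, ?_, by omega, a2, a3, a4, a5, ?_⟩
          · intro q hq
            rcases Finset.mem_insert.1 hq with rfl | hq
            · constructor <;> omega
            · have := hR q hq
              constructor <;> omega
          · rw [Finset.mem_insert, not_or]
            exact ⟨by omega, a0⟩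
          · rw [Finset.sum_insert hp, h3]
            have h4 : 1 ≤ 2 ^ (l + 1) := Nat.one_le_two_pow
            omega
        · refine ⟨∅, m - (l + 1), r + m + 1 - 2 ^ (l + 1), by simp, by simp, by omega, by omega,
            by omega, by omega, by omega, ?_⟩
          unfold t1c
          rw [h3, if_neg (by omega), Finset.sum_empty]
          omega

theorem low (k : ℕ) (hk : 2 ≤ k) (r : ℕ) (hr : r + k + 3 ≤ 2 ^ (k + 1)) :
    Good (k + 4) (3 * 2 ^ k + (k + 2) + r) := by
  obtain ⟨R, t0, t1, hR, a1, a2, a3, a4, a5⟩ := low_tail (k + 2) k (by omega) le_rfl r hr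
  have h1R : 1 ∉ R := fun h => by have := (hR 1 h).1; omega
  have h0R : 0 ∉ R := fun h => by have := (hR 0 h).1; omega
  have h := gadget (k + 2) (by omega) (insert 1 R) t0 t1 (by omega) (by omega) a3 (by omega)
    (fun q hq => by
      rcases Finset.mem_insert.1 hq with rfl | hq
      · omega
      · exact (hR q hq).2)
    (Or.inr ⟨by rw [Finset.mem_insert, not_or]; exact ⟨by omega, h0R⟩, Finset.mem_insert_self _ _,
      by omega⟩)
  have e : cnt (k + 2) (insert 1 R) t0 t1 = 3 * 2 ^ k + (k + 2) + r := by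
    unfold cnt
    rw [if_neg (by omega : ¬ t1 = k + 2), Finset.sum_insert h1R,
      if_neg (by rw [Finset.mem_insert, not_or]; exact ⟨by omega, h0R⟩ : 0 ∉ insert 1 R),
      if_pos (Finset.mem_insert_self _ _)]
    have e1 : k + 2 - 1 = k + 1 := by omega
    have e2 : k + 2 - 2 = k := by omega
    rw [e1, e2]
    have e3 : (2 : ℕ) ^ (k + 1) = 2 * 2 ^ k := by ring
    have e4 : 1 ≤ 2 ^ k := Nat.one_le_two_pow
    have e5 : 1 ≤ 2 ^ (k + 2 - t0) := Nat.one_le_two_pow
    omega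
  rw [e] at h
  exact h

theorem mid (k : ℕ) (hk : 2 ≤ k) (r : ℕ) (hr : r + k + 2 ≤ 2 ^ (k + 1)) (h1 : r ≠ 1) :
    Good (k + 4) (9 * 2 ^ (k - 1) + (k + 2) + r) := by
  obtain ⟨R, t0, t1, hR, a0, a1, a2, a3, a4, a5, a6⟩ := high_tail (k + 2) k hk le_rfl r hr h1
  have h1R : 1 ∉ R := fun h => by have := (hR 1 h).1; omega
  have h0R : 0 ∉ R := fun h => by have := (hR 0 h).1; omega
  have h := gadget (k + 2) (by omega) (insert 0 R) t0 t1 (by omega) (by omega) a3 a4
    (fun q hq => by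
      rcases Finset.mem_insert.1 hq with rfl | hq
      · omega
      · exact (hR q hq).2)
    (Or.inl ⟨Finset.mem_insert_self _ _, by rw [Finset.mem_insert, not_or]; exact ⟨by omega, a0⟩,
      a5⟩)
  have e : cnt (k + 2) (insert 0 R) t0 t1 = 9 * 2 ^ (k - 1) + (k + 2) + r := by
    unfold cnt
    unfold t1c at a6
    rw [Finset.sum_insert h0R, if_pos (Finset.mem_insert_self _ _),
      if_neg (by rw [Finset.mem_insert, not_or]; exact ⟨by omega, h1R⟩ : 1 ∉ insert 0 R)]
    have e1 : k + 2 - 0 = (k - 1) + 3 := by omega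
    have e2 : k + 2 - 3 = k - 1 := by omega
    rw [e1, e2]
    have e3 : (2 : ℕ) ^ ((k - 1) + 3) = 8 * 2 ^ (k - 1) := by ring
    have e4 : 1 ≤ 2 ^ (k - 1) := Nat.one_le_two_pow
    have e5 : 1 ≤ 2 ^ (k + 2 - t0) := Nat.one_le_two_pow
    omega
  rw [e] at h
  exact h

theorem high (k : ℕ) (hk : 2 ≤ k) (r : ℕ) (hr : r + k + 2 ≤ 2 ^ (k + 1)) (h1 : r ≠ 1) :
    Good (k + 4) (3 * 2 ^ (k + 1) + (k + 1) + r) := by
  obtain ⟨R, t0, t1, hR, a0, a1, a2, a3, a4, a5, a6⟩ := high_tail (k + 2) k hk le_rfl r hr h1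
  have h1R : 1 ∉ R := fun h => by have := (hR 1 h).1; omega
  have h0R : 0 ∉ R := fun h => by have := (hR 0 h).1; omega
  have h0R' : 0 ∉ insert 1 R := by rw [Finset.mem_insert, not_or]; exact ⟨by omega, h0R⟩
  have h := gadget (k + 2) (by omega) (insert 0 (insert 1 R)) t0 t1 (by omega) (by omega) a3 a4
    (fun q hq => by
      rcases Finset.mem_insert.1 hq with rfl | hq
      · omega
      · rcases Finset.mem_insert.1 hq with rfl | hq
        · omega
        · exact (hR q hq).2)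
    (Or.inl ⟨Finset.mem_insert_self _ _, by
      rw [Finset.mem_insert, Finset.mem_insert, not_or, not_or]
      exact ⟨by omega, by omega, a0⟩, a5⟩)
  have e : cnt (k + 2) (insert 0 (insert 1 R)) t0 t1 = 3 * 2 ^ (k + 1) + (k + 1) + r := by
    unfold cnt
    unfold t1c at a6
    rw [Finset.sum_insert h0R', Finset.sum_insert h1R, if_pos (Finset.mem_insert_self _ _),
      if_pos (Finset.mem_insert_of_mem (Finset.mem_insert_self _ _) : 1 ∈ insert 0 (insert 1 R))]
    have e1 : k + 2 - 0 = (k + 1) + 1 := by omega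
    have e2 : k + 2 - 1 = k + 1 := by omega
    rw [e1, e2]
    have e3 : (2 : ℕ) ^ ((k + 1) + 1) = 2 * 2 ^ (k + 1) := by ring
    have e4 : 1 ≤ 2 ^ (k + 1) := Nat.one_le_two_pow
    have e5 : 1 ≤ 2 ^ (k + 2 - t0) := Nat.one_le_two_pow
    omega
  rw [e] at h
  exact h

end Pool.Agent.H94.Magic
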