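import Pool.Agent.H94.Magic.Defs

/-!
# Basic lemmas: fooling sets, counting quotients, new start state

* `fooling`: if `x i ++ y i ∈ L` for all `i : Fin n` and for `i ≠ j` one of `x i ++ y j`, `x j ++ y i` is not in `L`
  then no NFA with fewer than `n` states accepts `L`.  (Pigeonhole: for each `i` pick a state `p i` of the NFA
  with `p i ∈ N.eval (x i)` from which `y i` is accepted; `p` is injective.)
* `card_of_codes`: `G : Finset γ` codes for the reachable state sets.
* `good_succ`: new start state `0`, both letters lead to the old start state; the old state `i` becomes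
  `i.succ`.  The new language is `{c :: w | w ∈ L}`.  New quotients: the old ones and the new language itself, which
  is not an old one: it is nonempty and its words have length `≥ ℓ + 1`, while a nonempty
  old quotient has a word of length `≤ ℓ`.  New `ℓ' = ℓ + 1`, `v' = 0 :: v`, new pairs: `(0 :: x i, y i)` for the old
  `i` and `([], 0 :: v)` for the new state: `0 :: (x i ++ 0 :: v) ∈ L'` or `y i ∈ L'` fails: if
  `(y i).length ≤ ℓ` then `y i ∉ L'`, otherwise `x i ++ 0 :: v ∉ L`.
* `good_one`: `L = Σ^*`, one state, one quotient, `ℓ = 0`, `v = []`, `x = y = []`.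
-/

set_option autoImplicit false

namespace Pool.Agent.H94.Magic

theorem mem_quot {σ : Type} (M : NFA (Fin 2) σ) (u w : List (Fin 2)) :
    u ++ w ∈ M.accepts ↔ w ∈ M.acceptsFrom (M.eval u) := by
  rw [NFA.accepts_eq_acceptsFrom_start, NFA.append_mem_acceptsFrom]
  rfl

theorem mem_acceptsFrom_iff {σ : Type} (M : NFA (Fin 2) σ) (S : Set σ) (w : List (Fin 2)) :
    w ∈ M.acceptsFrom S ↔ ∃ p ∈ S, w ∈ M.acceptsFrom {p} := by
  constructor
  · intro h
    rw [NFA.mem_acceptsFrom] at h
    obtain ⟨s, hs, h⟩ := h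
    rw [NFA.mem_evalFrom_iff_exists] at h
    obtain ⟨p, hp, h⟩ := h
    exact ⟨p, hp, NFA.mem_acceptsFrom.2 ⟨s, hs, h⟩⟩
  · rintro ⟨p, hp, h⟩
    rw [NFA.mem_acceptsFrom] at h ⊢
    obtain ⟨s, hs, h⟩ := h
    exact ⟨s, hs, NFA.mem_evalFrom_iff_exists.2 ⟨p, hp, h⟩⟩

theorem fooling {σ τ : Type} [Fintype σ] [Fintype τ] (M : NFA (Fin 2) σ) (N : NFA (Fin 2) τ)
    (x y : σ → List (Fin 2))
    (h1 : ∀ i, x i ++ y i ∈ M.accepts)
    (h2 : ∀ i j, i ≠ j → x i ++ y j ∉ M.accepts ∨ x j ++ y i ∉ M.accepts)
    (h : N.accepts = M.accepts) : Fintype.card σ ≤ Fintype.card τ := by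
  have key : ∀ i, ∃ p ∈ N.eval (x i), y i ∈ N.acceptsFrom {p} := by
    intro i
    have := h1 i
    rw [← h, mem_quot, mem_acceptsFrom_iff] at this
    exact this
  choose p hp hp' using key
  refine Fintype.card_le_of_injective p ?_
  intro i j hij
  by_contra hne
  have e1 : x i ++ y j ∈ M.accepts := by
    rw [← h, mem_quot, mem_acceptsFrom_iff]
    exact ⟨p j, hij ▸ hp i, hp' j⟩
  have e2 : x j ++ y i ∈ M.accepts := by
    rw [← h, mem_quot, mem_acceptsFrom_iff]
    exact ⟨p i, hij ▸ hp j, hp' i⟩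
  rcases h2 i j hne with h3 | h3
  · exact h3 e1
  · exact h3 e2

theorem Good.nonMagic {n α : ℕ} (h : Good n α) : NonMagic n α := by
  obtain ⟨M, ℓ, v, x, y, hs, hc, -, -, -, -, h1, h2, -⟩ := h
  refine ⟨M, hs, ?_, hc⟩
  intro m hm N hN
  have := fooling M N x y h1 h2 hN
  simp only [Fintype.card_fin] at this
  omega

/-- Counting quotients by codes of the reachable state sets. -/
theorem card_of_codes {σ γ : Type} (M : NFA (Fin 2) σ) (G : Finset γ) (dec : γ → Set σ)
    (h0 : ∃ c ∈ G, dec c = M.start)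
    (hcl : ∀ c ∈ G, ∀ a : Fin 2, ∃ c' ∈ G, dec c' = M.stepSet (dec c) a)
    (hreach : ∀ c ∈ G, ∃ u : List (Fin 2), M.eval u = dec c)
    (hdist : ∀ c ∈ G, ∀ c' ∈ G, M.acceptsFrom (dec c) = M.acceptsFrom (dec c') → c = c') :
    Nat.card (Set.range (fun u : List (Fin 2) =>
      ({w : List (Fin 2) | u ++ w ∈ M.accepts} : Set (List (Fin 2))))) = G.card := by
  have hev : ∀ u : List (Fin 2), ∃ c ∈ G, dec c = M.eval u := by
    intro u
    induction u using List.reverseRecOn with
    | nil => simpa using h0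
    | append_singleton u a ih =>
      obtain ⟨c, hc, hcu⟩ := ih
      obtain ⟨c', hc', e⟩ := hcl c hc a
      exact ⟨c', hc', by rw [e, hcu, NFA.eval_append_singleton]⟩
  have hq : ∀ u : List (Fin 2), ({w : List (Fin 2) | u ++ w ∈ M.accepts} : Set (List (Fin 2)))
      = {w : List (Fin 2) | w ∈ M.acceptsFrom (M.eval u)} := by
    intro u
    ext w
    exact mem_quot M u w
  have himg : Set.range (fun u : List (Fin 2) =>
      ({w : List (Fin 2) | u ++ w ∈ M.accepts} : Set (List (Fin 2)))) =
      (fun c : γ => ({w : List (Fin 2) | w ∈ M.acceptsFrom (dec c)} : Set (List (Fin 2)))) '' (G : Set γ) := by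
    ext S
    constructor
    · rintro ⟨u, rfl⟩
      obtain ⟨c, hc, e⟩ := hev u
      refine ⟨c, hc, ?_⟩
      simp only
      rw [hq u, e]
    · rintro ⟨c, hc, rfl⟩
      obtain ⟨u, e⟩ := hreach c hc
      refine ⟨u, ?_⟩
      simp only
      rw [hq u, e]
  rw [himg, Nat.card_coe_set_eq, Set.ncard_image_of_injOn, Set.ncard_coe_finset]
  intro c hc c' hc' e
  refine hdist c hc c' hc' ?_
  ext w
  exact Set.ext_iff.1 e w

theorem good_one : Good 1 1 := by
  let M : NFA (Fin 2) (Fin 1) := ⟨fun _ _ => Set.univ, Set.univ, Set.univ⟩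
  have hev : ∀ u : List (Fin 2), M.eval u = Set.univ := by
    intro u
    induction u using List.reverseRecOn with
    | nil => rfl
    | append_singleton u a ih =>
      rw [NFA.eval_append_singleton, ih]
      ext s
      rw [NFA.mem_stepSet]
      exact ⟨fun _ => Set.mem_univ _, fun _ => ⟨0, Set.mem_univ _, Set.mem_univ _⟩⟩
  have hacc : ∀ u : List (Fin 2), u ∈ M.accepts := by
    intro u
    refine ⟨0, Set.mem_univ _, ?_⟩
    rw [hev u]
    exact Set.mem_univ _
  refine ⟨M, 0, [], fun _ => [], fun _ => [], ⟨0, ?_⟩, ?_, fun _ _ => Nat.zero_le _, hacc _, rfl, ?_,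
    fun _ => hacc _, ?_, ?_⟩
  · ext s
    simp only [Set.mem_singleton_iff]
    exact ⟨fun _ => Subsingleton.elim _ _, fun _ => Set.mem_univ _⟩
  · have : Set.range (fun u : List (Fin 2) =>
        ({w : List (Fin 2) | u ++ w ∈ M.accepts} : Set (List (Fin 2)))) = {Set.univ} := by
      ext S
      constructor
      · rintro ⟨u, rfl⟩
        simp only [Set.mem_singleton_iff]
        ext w
        exact ⟨fun _ => Set.mem_univ _, fun _ => hacc _⟩
      · intro hS
        rw [Set.mem_singleton_iff] at hS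
        subst hS
        refine ⟨[], ?_⟩
        ext w
        exact ⟨fun _ => Set.mem_univ _, fun _ => hacc _⟩
    rw [this]
    simp
  · intro u _
    exact ⟨[], hacc _, le_refl _⟩
  · intro i j hij
    exact absurd (Subsingleton.elim i j) hij
  · intro i
    left
    exact le_refl _

/-- the automaton with a new start state in front -/
def succNFA {n : ℕ} (M : NFA (Fin 2) (Fin n)) (q : Fin n) : NFA (Fin 2) (Fin (n + 1)) where
  step i c := Fin.cases {q.succ} (fun j => Fin.succ '' M.step j c) i
  start := {0}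
  accept := Fin.succ '' M.accept

theorem succNFA_stepSet {n : ℕ} (M : NFA (Fin 2) (Fin n)) (q : Fin n) (S : Set (Fin n)) (c : Fin 2) :
    (succNFA M q).stepSet (Fin.succ '' S) c = Fin.succ '' M.stepSet S c := by
  ext s
  constructor
  · intro h
    rw [NFA.mem_stepSet] at h
    obtain ⟨t, ⟨t', ht', rfl⟩, h⟩ := h
    change s ∈ Fin.succ '' M.step t' c at h
    obtain ⟨s', hs', rfl⟩ := h
    exact ⟨s', NFA.mem_stepSet.2 ⟨t', ht', hs'⟩, rfl⟩
  · rintro ⟨s', hs', rfl⟩
    rw [NFA.mem_stepSet] at hs'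
    obtain ⟨t', ht', h⟩ := hs'
    rw [NFA.mem_stepSet]
    exact ⟨t'.succ, ⟨t', ht', rfl⟩, ⟨s', h, rfl⟩⟩

theorem succNFA_evalFrom {n : ℕ} (M : NFA (Fin 2) (Fin n)) (q : Fin n) (w : List (Fin 2)) :
    ∀ S : Set (Fin n), (succNFA M q).evalFrom (Fin.succ '' S) w = Fin.succ '' M.evalFrom S w := by
  induction w with
  | nil => intro S; rfl
  | cons c w ih =>
    intro S
    rw [NFA.evalFrom_cons, NFA.evalFrom_cons, succNFA_stepSet, ih]

theorem succNFA_cons {n : ℕ} (M : NFA (Fin 2) (Fin n)) (q : Fin n) (hq : M.start = {q})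
    (c : Fin 2) (w : List (Fin 2)) : c :: w ∈ (succNFA M q).accepts ↔ w ∈ M.accepts := by
  rw [NFA.mem_accepts, NFA.mem_accepts, NFA.evalFrom_cons]
  have e : (succNFA M q).stepSet (succNFA M q).start c = Fin.succ '' M.start := by
    change (succNFA M q).stepSet {0} c = _
    rw [NFA.stepSet_singleton, hq, Set.image_singleton]
    rfl
  rw [e, succNFA_evalFrom]
  constructor
  · rintro ⟨s, ⟨s', hs', rfl⟩, ⟨t, ht, e⟩⟩
    rw [Fin.succ_inj] at e
    subst e
    exact ⟨t, hs', ht⟩
  · rintro ⟨s, hs, hs'⟩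
    exact ⟨s.succ, ⟨s, hs, rfl⟩, ⟨s, hs', rfl⟩⟩

theorem succNFA_nil {n : ℕ} (M : NFA (Fin 2) (Fin n)) (q : Fin n) :
    [] ∉ (succNFA M q).accepts := by
  rw [NFA.mem_accepts]
  rintro ⟨s, ⟨s', hs', rfl⟩, h⟩
  change s'.succ ∈ ({0} : Set (Fin (n + 1))) at h
  rw [Set.mem_singleton_iff] at h
  exact Fin.succ_ne_zero _ h

theorem quot_finite {n : ℕ} (M : NFA (Fin 2) (Fin n)) : (Set.range (fun u : List (Fin 2) =>
      ({w : List (Fin 2) | u ++ w ∈ M.accepts} : Set (List (Fin 2))))).Finite := by
  refine Set.Finite.subset (Set.finite_range (fun S : Set (Fin n) =>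
    ({w : List (Fin 2) | w ∈ M.acceptsFrom S} : Set (List (Fin 2))))) ?_
  rintro _ ⟨u, rfl⟩
  refine ⟨M.eval u, ?_⟩
  ext w
  exact (mem_quot M u w).symm

theorem good_succ {n α : ℕ} (h : Good n α) : Good (n + 1) (α + 1) := by
  obtain ⟨M, ℓ, v, x, y, ⟨q, hs⟩, hc, hmin, hv, hvl, hshort, h1, h2, h3⟩ := h
  have hcons := succNFA_cons M q hs
  have hnil := succNFA_nil M q
  have hlen : ∀ w ∈ (succNFA M q).accepts, ℓ + 1 ≤ w.length := by
    intro w hw
    cases w with
    | nil => exact absurd hw hnil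
    | cons c w =>
      rw [hcons] at hw
      have := hmin w hw
      rw [List.length_cons]
      omega
  refine ⟨succNFA M q, ℓ + 1, 0 :: v, Fin.cons [] (fun i => 0 :: x i), Fin.cons (0 :: v) y,
    ⟨0, rfl⟩, ?_, hlen, (hcons 0 v).2 hv, ?_, ?_, ?_, ?_, ?_⟩
  · have hins : Set.range (fun u : List (Fin 2) =>
        ({w : List (Fin 2) | u ++ w ∈ (succNFA M q).accepts} : Set (List (Fin 2)))) =
        insert ({w : List (Fin 2) | w ∈ (succNFA M q).accepts} : Set (List (Fin 2))) (Set.range (fun u : List (Fin 2) =>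
        ({w : List (Fin 2) | u ++ w ∈ M.accepts} : Set (List (Fin 2))))) := by
      ext S
      constructor
      · rintro ⟨u, rfl⟩
        cases u with
        | nil =>
          left
          ext w
          exact Iff.rfl
        | cons c u =>
          right
          refine ⟨u, ?_⟩
          ext w
          exact (hcons c (u ++ w)).symm
      · rintro (hS | ⟨u, rfl⟩)
        · refine ⟨[], ?_⟩
          rw [hS]
          ext w
          exact Iff.rfl
        · refine ⟨0 :: u, ?_⟩
          ext w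
          exact hcons 0 (u ++ w)
    have hnot : ({w : List (Fin 2) | w ∈ (succNFA M q).accepts} : Set (List (Fin 2))) ∉ (Set.range (fun u : List (Fin 2) =>
        ({w : List (Fin 2) | u ++ w ∈ M.accepts} : Set (List (Fin 2))))) := by
      rintro ⟨u, hu⟩
      have hmem : ∀ w : List (Fin 2), u ++ w ∈ M.accepts ↔ w ∈ (succNFA M q).accepts := by
        intro w
        have := Set.ext_iff.1 hu w
        exact this
      obtain ⟨w, hw, hwl⟩ := hshort u ⟨0 :: v, (hmem _).2 ((hcons 0 v).2 hv)⟩
      have := hlen w ((hmem w).1 hw)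
      omega
    rw [hins, Nat.card_coe_set_eq, Set.ncard_insert_of_notMem hnot (quot_finite M),
      ← Nat.card_coe_set_eq, hc]
  · rw [List.length_cons, hvl]
  · intro u hu
    cases u with
    | nil => exact ⟨0 :: v, (hcons 0 v).2 hv, by rw [List.length_cons, hvl]⟩
    | cons c u =>
      obtain ⟨w, hw⟩ := hu
      obtain ⟨w', hw', hwl⟩ := hshort u ⟨w, (hcons c (u ++ w)).1 hw⟩
      exact ⟨w', (hcons c (u ++ w')).2 hw', by omega⟩
  · intro i
    refine Fin.cases ?_ ?_ i
    · exact (hcons 0 v).2 hv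
    · intro i
      exact (hcons 0 (x i ++ y i)).2 (h1 i)
  · have key : ∀ j : Fin n, y j ∉ (succNFA M q).accepts ∨ 0 :: (x j ++ 0 :: v) ∉ (succNFA M q).accepts := by
      intro j
      rcases h3 j with h | ⟨-, h⟩
      · left
        intro hy
        have := hlen _ hy
        omega
      · right
        intro hy
        exact h ((hcons 0 _).1 hy)
    intro i j
    refine Fin.cases ?_ ?_ i
    · refine Fin.cases ?_ ?_ j
      · intro hij
        exact absurd rfl hij
      · intro j _
        exact key j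
    · intro i
      refine Fin.cases ?_ ?_ j
      · intro _
        exact (key i).symm
      · intro j hij
        have hij' : i ≠ j := fun e => hij (by rw [e])
        rcases h2 i j hij' with h | h
        · left
          intro h'
          exact h ((hcons 0 _).1 h')
        · right
          intro h'
          exact h ((hcons 0 _).1 h')
  · intro i
    refine Fin.cases ?_ ?_ i
    · left
      simp [hvl]
    · intro i
      left
      have : (Fin.cons (0 :: v) y : Fin (n + 1) → List (Fin 2)) i.succ = y i := rfl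
      rw [this]
      rcases h3 i with h | ⟨h, -⟩ <;> omega

theorem good_add {n α : ℕ} (h : Good n α) (k : ℕ) : Good (n + k) (α + k) := by
  induction k with
  | zero => exact h
  | succ k ih => exact good_succ ih

end Pool.Agent.H94.Magic
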