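import Mathlib

/-!
# The levels `Bs s` of the gadget (sets containing `w` that are reached inside the tree) and their cardinality
-/

set_option autoImplicit false

namespace Pool.Agent.H94.Magic

/-- `Bs s`: codes in `[2^s, 2^(s+1))` of the tree part. -/
def Bs (Q : Finset ℕ) (t0 : ℕ) : ℕ → Finset ℕ
  | 0 => ∅
  | s + 1 => ((Bs Q t0 s).image (fun x => 2 * x) ∪ (Bs Q t0 s).image (fun x => 2 * x + 1)) ∪
      (if s ∈ Q then {2 ^ (s + 1) + 1} else if s = t0 then {2 ^ (s + 1)} else ∅)

theorem mem_Bs_succ (Q : Finset ℕ) (t0 s X : ℕ) :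
    X ∈ Bs Q t0 (s + 1) ↔ X / 2 ∈ Bs Q t0 s ∨ (s ∈ Q ∧ X = 2 ^ (s + 1) + 1) ∨
      (s ∉ Q ∧ s = t0 ∧ X = 2 ^ (s + 1)) := by
  rw [Bs, Finset.mem_union, Finset.mem_union, Finset.mem_image, Finset.mem_image]
  constructor
  · rintro ((⟨x, hx, rfl⟩ | ⟨x, hx, rfl⟩) | h)
    · left; have : 2 * x / 2 = x := by omega
      rwa [this]
    · left; have : (2 * x + 1) / 2 = x := by omega
      rwa [this]
    · right
      split_ifs at h with h1 h2
      · left; exact ⟨h1, by simpa using h⟩
      · right; exact ⟨h1, h2, by simpa using h⟩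
      · simp at h
  · rintro (h | ⟨h1, h2⟩ | ⟨h1, h2, h3⟩)
    · left
      rcases Nat.even_or_odd' X with ⟨x, hx | hx⟩
      · left; refine ⟨X / 2, h, by omega⟩
      · right; refine ⟨X / 2, h, by omega⟩
    · right; simp [h1, h2]
    · right; subst h2; subst h3; simp [h1]

theorem Bs_range (Q : Finset ℕ) (t0 s X : ℕ) (h : X ∈ Bs Q t0 s) : 2 ^ s ≤ X ∧ X < 2 ^ (s + 1) := by
  induction s generalizing X with
  | zero => simp [Bs] at h
  | succ s ih =>
    rw [mem_Bs_succ] at h
    have hp : (2:ℕ) ^ (s + 1) = 2 * 2 ^ s := by ring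
    have hp2 : (2:ℕ) ^ (s + 1 + 1) = 2 * 2 ^ (s + 1) := by ring
    have hpos : 0 < (2:ℕ) ^ s := by positivity
    rcases h with h | ⟨_, h⟩ | ⟨_, _, h⟩
    · have := ih _ h
      omega
    · omega
    · omega

theorem Bs_two_mul (Q : Finset ℕ) (t0 s X : ℕ) (h : X ∈ Bs Q t0 s) : 2 * X ∈ Bs Q t0 (s + 1) := by
  rw [mem_Bs_succ]; left
  have : 2 * X / 2 = X := by omega
  rwa [this]

theorem Bs_two_mul_add (Q : Finset ℕ) (t0 s X : ℕ) (h : X ∈ Bs Q t0 s) :
    2 * X + 1 ∈ Bs Q t0 (s + 1) := by
  rw [mem_Bs_succ]; left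
  have : (2 * X + 1) / 2 = X := by omega
  rwa [this]

section
variable (Q : Finset ℕ) (t0 : ℕ) (hQ : ∀ q ∈ Q, q < t0)
include hQ

theorem two_pow_mem_Bs (s : ℕ) : 2 ^ s ∈ Bs Q t0 s ↔ t0 < s := by
  induction s with
  | zero => simp [Bs]
  | succ s ih =>
    rw [mem_Bs_succ]
    have hp : (2:ℕ) ^ (s + 1) / 2 = 2 ^ s := by rw [pow_succ]; omega
    have ht : t0 ∉ Q := fun h => lt_irrefl _ (hQ _ h)
    rw [hp, ih]
    constructor
    · rintro (h | ⟨_, h⟩ | ⟨_, h, _⟩)
      · omega
      · omega
      · omega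
    · intro h
      rcases Nat.lt_or_ge t0 s with h1 | h1
      · exact Or.inl h1
      · have : s = t0 := by omega
        subst this
        exact Or.inr (Or.inr ⟨ht, rfl, rfl⟩)

theorem Bs_card_succ (s : ℕ) : (Bs Q t0 (s + 1)).card = 2 * (Bs Q t0 s).card +
    (if s ∈ insert t0 Q then 1 else 0) := by
  have ht : t0 ∉ Q := fun h => lt_irrefl _ (hQ _ h)
  rw [Bs]
  have h1 : ((Bs Q t0 s).image (fun x => 2 * x)).card = (Bs Q t0 s).card :=
    Finset.card_image_of_injective _ (fun a b h => by simpa using h)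
  have h2 : ((Bs Q t0 s).image (fun x => 2 * x + 1)).card = (Bs Q t0 s).card :=
    Finset.card_image_of_injective _ (fun a b h => by simpa using h)
  have hd : Disjoint ((Bs Q t0 s).image (fun x => 2 * x)) ((Bs Q t0 s).image (fun x => 2 * x + 1)) := by
    rw [Finset.disjoint_left]
    intro a ha hb
    rw [Finset.mem_image] at ha hb
    obtain ⟨x, _, hx⟩ := ha
    obtain ⟨y, _, hy⟩ := hb
    omega
  have h3 : ((Bs Q t0 s).image (fun x => 2 * x) ∪ (Bs Q t0 s).image (fun x => 2 * x + 1)).card =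
      2 * (Bs Q t0 s).card := by
    rw [Finset.card_union_of_disjoint hd, h1, h2]; ring
  have hmem := two_pow_mem_Bs Q t0 hQ s
  have hp : (2:ℕ) ^ (s + 1) = 2 * 2 ^ s := by ring
  by_cases hs : s ∈ Q
  · have hs' : s < t0 := hQ s hs
    rw [if_pos hs, if_pos (Finset.mem_insert_of_mem hs), Finset.card_union_of_disjoint, h3, Finset.card_singleton]
    rw [Finset.disjoint_singleton_right, Finset.mem_union, Finset.mem_image, Finset.mem_image]
    rintro (⟨x, hx, h⟩ | ⟨x, hx, h⟩)
    · omega
    · have : x = 2 ^ s := by omega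
      rw [this, hmem] at hx; omega
  · by_cases hs0 : s = t0
    · subst hs0
      rw [if_neg hs, if_pos rfl, if_pos (Finset.mem_insert_self _ _), Finset.card_union_of_disjoint, h3,
        Finset.card_singleton]
      rw [Finset.disjoint_singleton_right, Finset.mem_union, Finset.mem_image, Finset.mem_image]
      rintro (⟨x, hx, h⟩ | ⟨x, hx, h⟩)
      · have : x = 2 ^ s := by omega
        rw [this, hmem] at hx; omega
      · omega
    · have hi : s ∉ insert t0 Q := by simp [hs, hs0]
      rw [if_neg hs, if_neg hs0, if_neg hi, Finset.union_empty, h3]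
      rfl

theorem Bs_card (s : ℕ) : (Bs Q t0 s).card = ∑ q ∈ (insert t0 Q).filter (· < s), 2 ^ (s - 1 - q) := by
  induction s with
  | zero => simp [Bs]
  | succ s ih =>
    rw [Bs_card_succ Q t0 hQ, ih]
    have hf : (insert t0 Q).filter (· < s + 1) =
        if s ∈ insert t0 Q then insert s ((insert t0 Q).filter (· < s)) else (insert t0 Q).filter (· < s) := by
      ext x
      split_ifs with h
      · simp only [Finset.mem_filter, Finset.mem_insert (a := x) (b := s)]
        constructor
        · rintro ⟨h1, h2⟩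
          rcases Nat.lt_or_ge x s with h3 | h3
          · exact Or.inr ⟨h1, h3⟩
          · left; omega
        · rintro (h1 | ⟨h1, h2⟩)
          · subst h1; exact ⟨h, by omega⟩
          · exact ⟨h1, by omega⟩
      · simp only [Finset.mem_filter]
        constructor
        · rintro ⟨h1, h2⟩
          refine ⟨h1, ?_⟩
          rcases Nat.lt_or_ge x s with h3 | h3
          · exact h3
          · exfalso; apply h; have : x = s := by omega
            rwa [← this]
        · rintro ⟨h1, h2⟩
          exact ⟨h1, by omega⟩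
    rw [hf, Finset.mul_sum]
    have hS : ∑ q ∈ (insert t0 Q).filter (· < s), 2 * 2 ^ (s - 1 - q) =
        ∑ q ∈ (insert t0 Q).filter (· < s), 2 ^ (s + 1 - 1 - q) := by
      apply Finset.sum_congr rfl
      intro q hq
      rw [Finset.mem_filter] at hq
      have : s + 1 - 1 - q = (s - 1 - q) + 1 := by omega
      rw [this, pow_succ]; ring
    rw [hS]
    split_ifs with h
    · rw [Finset.sum_insert (by simp)]
      simp
      ring
    · simp

theorem Bs_sum_card (S : ℕ) : ∑ s ∈ Finset.range (S + 1), (Bs Q t0 s).card =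
    ∑ q ∈ (insert t0 Q).filter (· < S), (2 ^ (S - q) - 1) := by
  induction S with
  | zero => simp [Bs]
  | succ S ih =>
    rw [Finset.sum_range_succ, ih, Bs_card Q t0 hQ (S + 1)]
    have hf : (insert t0 Q).filter (· < S + 1) =
        if S ∈ insert t0 Q then insert S ((insert t0 Q).filter (· < S)) else (insert t0 Q).filter (· < S) := by
      ext x
      split_ifs with h
      · simp only [Finset.mem_filter, Finset.mem_insert (a := x) (b := S)]
        constructor
        · rintro ⟨h1, h2⟩
          rcases Nat.lt_or_ge x S with h3 | h3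
          · exact Or.inr ⟨h1, h3⟩
          · left; omega
        · rintro (h1 | ⟨h1, h2⟩)
          · subst h1; exact ⟨h, by omega⟩
          · exact ⟨h1, by omega⟩
      · simp only [Finset.mem_filter]
        constructor
        · rintro ⟨h1, h2⟩
          refine ⟨h1, ?_⟩
          rcases Nat.lt_or_ge x S with h3 | h3
          · exact h3
          · exfalso; apply h; have : x = S := by omega
            rwa [← this]
        · rintro ⟨h1, h2⟩
          exact ⟨h1, by omega⟩
    rw [hf]
    have key : ∀ q ∈ (insert t0 Q).filter (· < S), (2 ^ (S + 1 - q) - 1 : ℕ) =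
        (2 ^ (S - q) - 1) + 2 ^ (S + 1 - 1 - q) := by
      intro q hq
      rw [Finset.mem_filter] at hq
      have h1 : S + 1 - q = (S - q) + 1 := by omega
      have h2 : S + 1 - 1 - q = S - q := by omega
      rw [h1, h2, pow_succ]
      have : 0 < (2:ℕ) ^ (S - q) := by positivity
      omega
    split_ifs with h
    · rw [Finset.sum_insert (by simp), Finset.sum_insert (by simp), Finset.sum_congr rfl key,
        Finset.sum_add_distrib]
      simp
      ring
    · rw [Finset.sum_congr rfl key, Finset.sum_add_distrib]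

end

theorem Bs_high (Q : Finset ℕ) (t0 : ℕ) (h2 : 2 ≤ t0) (s : ℕ) (hs : 1 ≤ s) (X : ℕ)
    (h1 : 3 * 2 ^ (s - 1) ≤ X) (h3 : X < 2 ^ (s + 1)) : X ∈ Bs Q t0 s ↔ 0 ∈ Q := by
  induction s, hs using Nat.le_induction generalizing X with
  | base =>
    have : X = 3 := by norm_num at h1 h3; omega
    subst this
    rw [mem_Bs_succ]
    simp [Bs]
  | succ s hs ih =>
    have hp : (2:ℕ) ^ (s + 1 - 1) = 2 * 2 ^ (s - 1) := by
      have : s + 1 - 1 = (s - 1) + 1 := by omega
      rw [this, pow_succ]; ring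
    have hp2 : (2:ℕ) ^ (s + 1) = 4 * 2 ^ (s - 1) := by
      have : s + 1 = (s - 1) + 2 := by omega
      rw [this, pow_add]; ring
    have hp3 : (2:ℕ) ^ (s + 1 + 1) = 8 * 2 ^ (s - 1) := by
      have : s + 1 + 1 = (s - 1) + 3 := by omega
      rw [this, pow_add]; ring
    have hpos : 0 < (2:ℕ) ^ (s - 1) := by positivity
    rw [mem_Bs_succ, ih (X / 2) (by omega) (by omega)]
    constructor
    · rintro (h | ⟨_, h⟩ | ⟨_, _, h⟩)
      · exact h
      · omega
      · omega
    · intro h; exact Or.inl h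

theorem Bs_mid (Q : Finset ℕ) (t0 : ℕ) (h2 : 2 ≤ t0) (s : ℕ) (hs : 2 ≤ s) (X : ℕ)
    (h1 : 5 * 2 ^ (s - 2) ≤ X) (h3 : X < 6 * 2 ^ (s - 2)) : X ∈ Bs Q t0 s ↔ 1 ∈ Q := by
  induction s, hs using Nat.le_induction generalizing X with
  | base =>
    have : X = 5 := by norm_num at h1 h3; omega
    subst this
    rw [mem_Bs_succ, mem_Bs_succ]
    simp [Bs]
    intro h _
    omega
  | succ s hs ih =>
    have hp : (2:ℕ) ^ (s + 1 - 2) = 2 * 2 ^ (s - 2) := by
      have : s + 1 - 2 = (s - 2) + 1 := by omega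
      rw [this, pow_succ]; ring
    have hp2 : (2:ℕ) ^ (s + 1) = 8 * 2 ^ (s - 2) := by
      have : s + 1 = (s - 2) + 3 := by omega
      rw [this, pow_add]; ring
    have hpos : 0 < (2:ℕ) ^ (s - 2) := by positivity
    rw [mem_Bs_succ, ih (X / 2) (by omega) (by omega)]
    constructor
    · rintro (h | ⟨_, h⟩ | ⟨_, _, h⟩)
      · exact h
      · omega
      · omega
    · intro h; exact Or.inl h

end Pool.Agent.H94.Magic
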