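import Pool.Agent.H94.Magic.GadgetDefs

/-!
# Reading words: which states of the gadget accept which short words
-/

set_option autoImplicit false

namespace Pool.Agent.H94.Magic

/-- the states accepting `w` are exactly those with `P` -/
def Kd (m : ℕ) (Q : Finset ℕ) (t0 t1 : ℕ) (w : List (Fin 2)) (P : ℕ → Prop) : Prop :=
  ∀ S : Set (Fin (m + 2)), w ∈ (gad m Q t0 t1).acceptsFrom S ↔ ∃ s ∈ S, P s.val

variable (m : ℕ) (Q : Finset ℕ) (t0 t1 : ℕ)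

theorem Kd_nil : Kd m Q t0 t1 [] (fun i => i + 1 = m) := by
  intro S
  rw [NFA.nil_mem_acceptsFrom]
  rfl

theorem Kd_cons {w : List (Fin 2)} {P P' : ℕ → Prop} (c : Fin 2) (h : Kd m Q t0 t1 w P)
    (h' : ∀ i < m + 2, (P' i ↔ ∃ j < m + 2, tr m Q t0 t1 i c j ∧ P j)) : Kd m Q t0 t1 (c :: w) P' := by
  intro S
  rw [NFA.cons_mem_acceptsFrom, h]
  constructor
  · rintro ⟨j, hj, hP⟩
    rw [NFA.mem_stepSet] at hj
    obtain ⟨i, hi, hij⟩ := hj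
    exact ⟨i, hi, (h' i.val i.isLt).2 ⟨j.val, j.isLt, hij, hP⟩⟩
  · rintro ⟨i, hi, hP⟩
    obtain ⟨j, hj, hij, hPj⟩ := (h' i.val i.isLt).1 hP
    exact ⟨⟨j, hj⟩, NFA.mem_stepSet.2 ⟨i, hi, hij⟩, hPj⟩

theorem Kd_b (hm : 4 ≤ m) : Kd m Q t0 t1 [1] (fun i => i = m - 2) := by
  apply Kd_cons m Q t0 t1 1 (Kd_nil m Q t0 t1)
  intro i hi
  constructor
  · intro h
    exact ⟨m - 1, by omega, Or.inr (Or.inl ⟨by omega, rfl, Or.inl (by omega)⟩), by omega⟩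
  · rintro ⟨j, hj, h, hj1⟩
    rcases h with ⟨_, h, _⟩ | ⟨h1, _, h | ⟨_, h | h⟩ | ⟨_, h⟩⟩ | ⟨_, h, _⟩ | ⟨h1, _, h | h⟩ | ⟨h1, h | ⟨_, h⟩⟩
    · exact absurd h (by decide)
    all_goals first | omega | exact absurd h (by decide)

theorem Kd_ab (hm : 4 ≤ m) (k : ℕ) (hk : k ≤ m - 2) :
    Kd m Q t0 t1 (List.replicate k 0 ++ [1]) (fun i => i = m - 2 - k) := by
  induction k with
  | zero => simpa using Kd_b m Q t0 t1 hm
  | succ k ih =>
    rw [List.replicate_succ, List.cons_append]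
    apply Kd_cons m Q t0 t1 0 (ih (by omega))
    intro i hi
    constructor
    · intro h
      exact ⟨m - 2 - k, by omega, Or.inl ⟨by omega, rfl, Or.inl (by omega)⟩, rfl⟩
    · rintro ⟨j, hj, h, hj1⟩
      rcases h with ⟨h1, _, h | ⟨_, h⟩⟩ | ⟨_, h, _⟩ | ⟨h1, _, h | h | h | h⟩ | ⟨_, h, _⟩ | ⟨h1, h | ⟨h, _⟩⟩
      all_goals first | omega | exact absurd h (by decide)

theorem Kd_zero (hm : 4 ≤ m) :
    Kd m Q t0 t1 (List.replicate (m - 2) 0 ++ [1]) (fun i => i = 0) := by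
  have := Kd_ab m Q t0 t1 hm (m - 2) le_rfl
  simpa using this

theorem Kd_om (hm : 4 ≤ m) :
    Kd m Q t0 t1 (0 :: (List.replicate (m - 2) 0 ++ [1])) (fun i => i = m) := by
  apply Kd_cons m Q t0 t1 0 (Kd_zero m Q t0 t1 hm)
  intro i hi
  constructor
  · intro h
    exact ⟨0, by omega, Or.inr (Or.inr (Or.inl ⟨h, rfl, Or.inl rfl⟩)), rfl⟩
  · rintro ⟨j, hj, h, hj1⟩
    rcases h with ⟨h1, _, h | ⟨_, h⟩⟩ | ⟨_, h, _⟩ | ⟨h1, _, h | h | h | h⟩ | ⟨_, h, _⟩ | ⟨h1, h | ⟨h, _⟩⟩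
    all_goals first | omega | exact absurd h (by decide)

theorem Kd_w (hm : 4 ≤ m) (hQ : ∀ q ∈ Q, q < m) :
    Kd m Q t0 t1 (1 :: (List.replicate (m - 2) 0 ++ [1])) (fun i => i ∈ Q ∨ i = m + 1) := by
  apply Kd_cons m Q t0 t1 1 (Kd_zero m Q t0 t1 hm)
  intro i hi
  constructor
  · rintro (h | h)
    · exact ⟨0, by omega, Or.inr (Or.inl ⟨hQ i h, rfl, Or.inr (Or.inl ⟨h, Or.inl rfl⟩)⟩), rfl⟩
    · exact ⟨0, by omega, Or.inr (Or.inr (Or.inr (Or.inr ⟨h, Or.inr ⟨rfl, rfl⟩⟩))), rfl⟩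
  · rintro ⟨j, hj, h, hj1⟩
    rcases h with ⟨_, h, _⟩ | ⟨h1, _, h | ⟨h, _⟩ | ⟨_, h⟩⟩ | ⟨_, h, _⟩ | ⟨h1, _, h | h⟩ | ⟨h1, h | ⟨_, h⟩⟩
    · exact absurd h (by decide)
    · omega
    · exact Or.inl h
    · omega
    · exact absurd h (by decide)
    all_goals omega

theorem Kd_bb (hm : 4 ≤ m) : Kd m Q t0 t1 [1, 1] (fun i => i = m - 3 ∨ i = m) := by
  apply Kd_cons m Q t0 t1 1 (Kd_b m Q t0 t1 hm)
  intro i hi
  constructor
  · rintro (h | h)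
    · exact ⟨m - 2, by omega, Or.inr (Or.inl ⟨by omega, rfl, Or.inl (by omega)⟩), rfl⟩
    · exact ⟨m - 2, by omega, Or.inr (Or.inr (Or.inr (Or.inl ⟨h, rfl, Or.inl rfl⟩))), rfl⟩
  · rintro ⟨j, hj, h, hj1⟩
    rcases h with ⟨_, h, _⟩ | ⟨h1, _, h | ⟨_, h | h⟩ | ⟨_, h⟩⟩ | ⟨_, h, _⟩ | ⟨h1, _, h | h⟩ | ⟨h1, h | ⟨_, h⟩⟩
    · exact absurd h (by decide)
    all_goals first | omega | exact absurd h (by decide)

theorem Kd_a (hm : 4 ≤ m) : Kd m Q t0 t1 [0] (fun i => i = m - 2 ∨ i = m) := by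
  apply Kd_cons m Q t0 t1 0 (Kd_nil m Q t0 t1)
  intro i hi
  constructor
  · rintro (h | h)
    · exact ⟨m - 1, by omega, Or.inl ⟨by omega, rfl, Or.inl (by omega)⟩, by omega⟩
    · exact ⟨m - 1, by omega, Or.inr (Or.inr (Or.inl ⟨h, rfl, Or.inr (Or.inl rfl)⟩)), by omega⟩
  · rintro ⟨j, hj, h, hj1⟩
    rcases h with ⟨h1, _, h | ⟨_, h⟩⟩ | ⟨_, h, _⟩ | ⟨h1, _, h | h | h | h⟩ | ⟨_, h, _⟩ | ⟨h1, h | ⟨h, _⟩⟩
    all_goals first | omega | exact absurd h (by decide)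

/-- the word that reads exactly the state `i ≤ m` (short for `i < m`) -/
def rdw (m i : ℕ) : List (Fin 2) :=
  if i = m then 0 :: (List.replicate (m - 2) 0 ++ [1])
  else if i + 1 = m then [] else List.replicate (m - 2 - i) 0 ++ [1]

theorem Kd_rdw (hm : 4 ≤ m) (i : ℕ) (hi : i ≤ m) : Kd m Q t0 t1 (rdw m i) (fun j => j = i) := by
  unfold rdw
  split_ifs with h1 h2
  · subst h1; exact Kd_om i Q t0 t1 hm
  · have := Kd_nil m Q t0 t1
    intro S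
    rw [this S]
    constructor
    · rintro ⟨s, hs, h⟩; exact ⟨s, hs, by omega⟩
    · rintro ⟨s, hs, h⟩; exact ⟨s, hs, by omega⟩
  · have := Kd_ab m Q t0 t1 hm (m - 2 - i) (by omega)
    intro S
    rw [this S]
    constructor
    · rintro ⟨s, hs, h⟩; exact ⟨s, hs, by omega⟩
    · rintro ⟨s, hs, h⟩; exact ⟨s, hs, by omega⟩

theorem rdw_length (hm : 4 ≤ m) (i : ℕ) (hi : i < m) : (rdw m i).length = m - 1 - i := by
  unfold rdw
  rw [if_neg (by omega)]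
  split_ifs with h2
  · simp; omega
  · simp; omega

/-! ## Invariants -/

theorem eval_le (u : List (Fin 2)) : ∀ q ∈ (gad m Q t0 t1).eval u, q.val ≤ u.length ∨ q.val = m + 1 := by
  induction u using List.reverseRecOn with
  | nil => intro q hq; left; have : q = 0 := hq; subst this; simp
  | append_singleton u c ih =>
    intro q hq
    rw [NFA.eval_append_singleton, NFA.mem_stepSet] at hq
    obtain ⟨p, hp, hpq⟩ := hq
    have h := ih p hp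
    rw [List.length_append, List.length_singleton]
    have hpq' : tr m Q t0 t1 p.val c q.val := hpq
    rcases hpq' with ⟨h1, _, h2 | ⟨_, h2⟩⟩ | ⟨h1, _, h2 | ⟨_, h2 | h2⟩ | ⟨_, h2⟩⟩ | ⟨h1, _, h2 | h2 | h2 | h2⟩ |
      ⟨h1, _, h2 | h2⟩ | ⟨h1, h2 | ⟨_, h2⟩⟩
    all_goals omega

theorem exists_le (u : List (Fin 2)) : ∃ q ∈ (gad m Q t0 t1).eval u, q.val ≤ m := by
  induction u using List.reverseRecOn with
  | nil => exact ⟨0, rfl, by simp⟩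
  | append_singleton u c ih =>
    obtain ⟨p, hp, hpm⟩ := ih
    rw [NFA.eval_append_singleton]
    rcases Nat.lt_or_ge p.val m with h | h
    · refine ⟨⟨p.val + 1, by omega⟩, NFA.mem_stepSet.2 ⟨p, hp, ?_⟩, by simp; omega⟩
      show tr m Q t0 t1 p.val c (p.val + 1)
      fin_cases c
      · exact Or.inl ⟨h, rfl, Or.inl rfl⟩
      · exact Or.inr (Or.inl ⟨h, rfl, Or.inl rfl⟩)
    · have hp' : p.val = m := by omega
      refine ⟨⟨m, by omega⟩, NFA.mem_stepSet.2 ⟨p, hp, ?_⟩, by simp⟩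
      show tr m Q t0 t1 p.val c m
      fin_cases c
      · exact Or.inr (Or.inr (Or.inl ⟨hp', rfl, by simp⟩))
      · exact Or.inr (Or.inr (Or.inr (Or.inl ⟨hp', rfl, by simp⟩)))

/-- a word `w` is accepted after `u` iff it is read by a state of `eval u` -/
theorem mem_accepts_iff {w : List (Fin 2)} {P : ℕ → Prop} (h : Kd m Q t0 t1 w P) (u : List (Fin 2)) :
    u ++ w ∈ (gad m Q t0 t1).accepts ↔ ∃ q ∈ (gad m Q t0 t1).eval u, P q.val := by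
  rw [NFA.accepts_eq_acceptsFrom_start, NFA.append_mem_acceptsFrom, h]
  rfl

end Pool.Agent.H94.Magic
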