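import Pool.Agent.H94.Magic.Trans
import Pool.Agent.H94.Magic.Levels
import Pool.Agent.H94.Magic.Reading

/-!
# The finite set of codes: closure, reachability, distinctness, cardinality
-/

set_option autoImplicit false

namespace Pool.Agent.H94.Magic

variable (m : ℕ) (Q : Finset ℕ) (t0 t1 : ℕ)

/-! ## The `w`-free sets containing `ω` -/

def c6 (m : ℕ) : ℕ := 2 ^ 0 ||| 2 ^ (m - 1) ||| 2 ^ m
def z1 (m : ℕ) : ℕ := 2 ^ (m - 2) ||| 2 ^ m
def z2 (m : ℕ) : ℕ := 2 ^ (m - 1) ||| 2 ^ (m - 2) ||| 2 ^ m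

theorem tb_c6 (j : ℕ) : (c6 m).testBit j = true ↔ j = 0 ∨ j = m - 1 ∨ j = m := by
  unfold c6; simp only [Nat.testBit_or, Bool.or_eq_true, tb_pow]; tauto
theorem tb_z1 (j : ℕ) : (z1 m).testBit j = true ↔ j = m - 2 ∨ j = m := by
  unfold z1; simp only [Nat.testBit_or, Bool.or_eq_true, tb_pow]
theorem tb_z2 (j : ℕ) : (z2 m).testBit j = true ↔ j = m - 1 ∨ j = m - 2 ∨ j = m := by
  unfold z2; simp only [Nat.testBit_or, Bool.or_eq_true, tb_pow]; tauto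

theorem T6 (hm : 4 ≤ m) :
    dec m (c6 m, true) = (gad m Q t0 t1).stepSet (dec m (2 ^ m, false)) 0 := by
  rw [step_pow m Q t0 t1 m le_rfl]
  ext j
  simp only [dec, tb_c6, Set.mem_ofPred_eq]
  constructor
  · intro h; refine Or.inr (Or.inr (Or.inl ⟨rfl, rfl, ?_⟩)); omega
  · intro hj
    rcases hj with ⟨h1, _, h | ⟨_, h⟩⟩ | ⟨_, h, _⟩ | ⟨h1, _, h | h | h | h⟩ | ⟨_, h, _⟩ | ⟨h1, h | ⟨h, _⟩⟩
    all_goals first | exact absurd h (by decide) | exact Or.inr ⟨h, trivial⟩ | omega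

theorem T7 (hm : 4 ≤ m) :
    dec m (z1 m, false) = (gad m Q t0 t1).stepSet (dec m (2 ^ m, false)) 1 := by
  rw [step_pow m Q t0 t1 m le_rfl]
  ext j
  simp only [dec, tb_z1, Set.mem_ofPred_eq]
  constructor
  · rintro (⟨_, h⟩ | ⟨_, h⟩)
    · exact Or.inr (Or.inr (Or.inr (Or.inl ⟨rfl, rfl, h⟩)))
    · exact absurd h (by simp)
  · intro hj
    rcases hj with ⟨_, h, _⟩ | ⟨h1, _, h | ⟨h', h | h⟩ | ⟨_, h⟩⟩ | ⟨_, h, _⟩ | ⟨h1, _, h | h⟩ | ⟨h1, h | ⟨_, h⟩⟩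
    · exact absurd h (by decide)
    · omega
    · omega
    · omega
    · omega
    · exact absurd h (by decide)
    · exact Or.inl ⟨by omega, Or.inl h⟩
    · exact Or.inl ⟨by omega, Or.inr h⟩
    all_goals omega

theorem T8 (hm : 4 ≤ m) (h1 : t1 = m) :
    dec m (c6 m, true) = (gad m Q t0 t1).stepSet (dec m (z1 m, false)) 0 := by
  ext j
  rw [NFA.mem_stepSet]
  simp only [dec, tb_c6, tb_z1, Set.mem_ofPred_eq]
  constructor
  · intro h
    refine ⟨⟨m, by omega⟩, Or.inl ⟨le_rfl, Or.inr rfl⟩, Or.inr (Or.inr (Or.inl ⟨rfl, rfl, ?_⟩))⟩; omega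
  · rintro ⟨p, hp, hj⟩
    rcases hp with ⟨_, hp⟩ | ⟨_, hp⟩
    · rcases hj with ⟨h1, _, h | ⟨_, h⟩⟩ | ⟨_, h, _⟩ | ⟨h1, _, h | h | h | h⟩ | ⟨_, h, _⟩ | ⟨h1, h | ⟨h, _⟩⟩
      all_goals first | exact absurd h (by decide) | exact Or.inr ⟨h, trivial⟩ | omega
    · exact absurd hp (by simp)

theorem T9 (hm : 4 ≤ m) (h0 : t0 ≤ m - 2) (hQ : m - 2 ∉ Q) :
    dec m (z2 m, true) = (gad m Q t0 t1).stepSet (dec m (z1 m, false)) 1 := by
  ext j
  rw [NFA.mem_stepSet]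
  simp only [dec, tb_z2, tb_z1, Set.mem_ofPred_eq]
  constructor
  · rintro (⟨_, h | h | h⟩ | ⟨h, _⟩)
    · exact ⟨⟨m - 2, by omega⟩, Or.inl ⟨by simp, Or.inl rfl⟩,
        Or.inr (Or.inl ⟨by simp; omega, rfl, Or.inl (by simp; omega)⟩)⟩
    · exact ⟨⟨m, by omega⟩, Or.inl ⟨by simp, Or.inr rfl⟩,
        Or.inr (Or.inr (Or.inr (Or.inl ⟨rfl, rfl, Or.inl h⟩)))⟩
    · exact ⟨⟨m, by omega⟩, Or.inl ⟨by simp, Or.inr rfl⟩,
        Or.inr (Or.inr (Or.inr (Or.inl ⟨rfl, rfl, Or.inr h⟩)))⟩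
    · exact ⟨⟨m - 2, by omega⟩, Or.inl ⟨by simp, Or.inl rfl⟩,
        Or.inr (Or.inl ⟨by simp; omega, rfl, Or.inr (Or.inr ⟨by simpa using h0, h⟩)⟩)⟩
  · rintro ⟨p, hp, hj⟩
    rcases hp with ⟨_, hp⟩ | ⟨_, hp⟩
    · rcases hj with ⟨_, h, _⟩ | ⟨h1, _, h | ⟨h', h | h⟩ | ⟨_, h⟩⟩ | ⟨_, h, _⟩ | ⟨h1, _, h | h⟩ | ⟨h1, h | ⟨_, h⟩⟩
      · exact absurd h (by decide)
      · omega
      · exfalso; apply hQ; have : p.val = m - 2 := by omega
        rwa [this] at h'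
      · exfalso; apply hQ; have : p.val = m - 2 := by omega
        rwa [this] at h'
      · exact Or.inr ⟨h, trivial⟩
      · exact absurd h (by decide)
      all_goals omega
    · exact absurd hp (by simp)

theorem T10 (hm : 4 ≤ m) (h0 : t0 + 1 = m) (hQ : m - 2 ∉ Q) :
    dec m (z2 m, false) = (gad m Q t0 t1).stepSet (dec m (z1 m, false)) 1 := by
  ext j
  rw [NFA.mem_stepSet]
  simp only [dec, tb_z2, tb_z1, Set.mem_ofPred_eq]
  constructor
  · rintro (⟨_, h | h | h⟩ | ⟨_, h⟩)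
    · exact ⟨⟨m - 2, by omega⟩, Or.inl ⟨by simp, Or.inl rfl⟩,
        Or.inr (Or.inl ⟨by simp; omega, rfl, Or.inl (by simp; omega)⟩)⟩
    · exact ⟨⟨m, by omega⟩, Or.inl ⟨by simp, Or.inr rfl⟩,
        Or.inr (Or.inr (Or.inr (Or.inl ⟨rfl, rfl, Or.inl h⟩)))⟩
    · exact ⟨⟨m, by omega⟩, Or.inl ⟨by simp, Or.inr rfl⟩,
        Or.inr (Or.inr (Or.inr (Or.inl ⟨rfl, rfl, Or.inr h⟩)))⟩
    · exact absurd h (by simp)
  · rintro ⟨p, hp, hj⟩
    rcases hp with ⟨_, hp⟩ | ⟨_, hp⟩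
    · rcases hj with ⟨_, h, _⟩ | ⟨h1, _, h | ⟨h', h | h⟩ | ⟨_, h⟩⟩ | ⟨_, h, _⟩ | ⟨h1, _, h | h⟩ | ⟨h1, h | ⟨_, h⟩⟩
      · exact absurd h (by decide)
      · omega
      · exfalso; apply hQ; have : p.val = m - 2 := by omega
        rwa [this] at h'
      · exfalso; apply hQ; have : p.val = m - 2 := by omega
        rwa [this] at h'
      · omega
      · exact absurd h (by decide)
      all_goals omega
    · exact absurd hp (by simp)

theorem T11 (hm : 4 ≤ m) (h1 : t1 = m) :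
    dec m (c6 m, true) = (gad m Q t0 t1).stepSet (dec m (z2 m, false)) 0 := by
  ext j
  rw [NFA.mem_stepSet]
  simp only [dec, tb_c6, tb_z2, Set.mem_ofPred_eq]
  constructor
  · intro h
    refine ⟨⟨m, by omega⟩, Or.inl ⟨le_rfl, by simp⟩, Or.inr (Or.inr (Or.inl ⟨rfl, rfl, ?_⟩))⟩; omega
  · rintro ⟨p, hp, hj⟩
    rcases hp with ⟨_, hp⟩ | ⟨_, hp⟩
    · rcases hj with ⟨h1, _, h | ⟨_, h⟩⟩ | ⟨_, h, _⟩ | ⟨h1, _, h | h | h | h⟩ | ⟨_, h, _⟩ | ⟨h1, h | ⟨h, _⟩⟩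
      all_goals first | exact absurd h (by decide) | exact Or.inr ⟨h, trivial⟩ | omega
    · exact absurd hp (by simp)

theorem T12 (hm : 4 ≤ m) (h0 : t0 + 1 = m) (hQ : m - 2 ∉ Q) (hQ1 : m - 1 ∉ Q) :
    dec m (z2 m, true) = (gad m Q t0 t1).stepSet (dec m (z2 m, false)) 1 := by
  ext j
  rw [NFA.mem_stepSet]
  simp only [dec, tb_z2, Set.mem_ofPred_eq]
  constructor
  · rintro (⟨_, h | h | h⟩ | ⟨h, _⟩)
    · exact ⟨⟨m - 2, by omega⟩, Or.inl ⟨by simp, Or.inr (Or.inl rfl)⟩,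
        Or.inr (Or.inl ⟨by simp; omega, rfl, Or.inl (by simp; omega)⟩)⟩
    · exact ⟨⟨m, by omega⟩, Or.inl ⟨by simp, Or.inr (Or.inr rfl)⟩,
        Or.inr (Or.inr (Or.inr (Or.inl ⟨rfl, rfl, Or.inl h⟩)))⟩
    · exact ⟨⟨m, by omega⟩, Or.inl ⟨by simp, Or.inr (Or.inr rfl)⟩,
        Or.inr (Or.inr (Or.inr (Or.inl ⟨rfl, rfl, Or.inr h⟩)))⟩
    · exact ⟨⟨m - 1, by omega⟩, Or.inl ⟨by simp, Or.inl rfl⟩,
        Or.inr (Or.inl ⟨by simp; omega, rfl, Or.inr (Or.inr ⟨by simp; omega, h⟩)⟩)⟩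
  · rintro ⟨p, hp, hj⟩
    rcases hp with ⟨_, hp⟩ | ⟨_, hp⟩
    · rcases hj with ⟨_, h, _⟩ | ⟨h1, _, h | ⟨h', h | h⟩ | ⟨_, h⟩⟩ | ⟨_, h, _⟩ | ⟨h1, _, h | h⟩ | ⟨h1, h | ⟨_, h⟩⟩
      · exact absurd h (by decide)
      · omega
      · exfalso
        have : p.val = m - 2 ∨ p.val = m - 1 := by omega
        rcases this with h3 | h3
        · rw [h3] at h'; exact hQ h'
        · rw [h3] at h'; exact hQ1 h'
      · exfalso
        have : p.val = m - 2 ∨ p.val = m - 1 := by omega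
        rcases this with h3 | h3
        · rw [h3] at h'; exact hQ h'
        · rw [h3] at h'; exact hQ1 h'
      · exact Or.inr ⟨h, trivial⟩
      · exact absurd h (by decide)
      all_goals omega
    · exact absurd hp (by simp)

/-! ## The codes with `w` -/

/-- odd codes added by the loops at `ω` -/
def VO (m : ℕ) (Q : Finset ℕ) : Finset ℕ :=
  (if 0 ∈ Q then ∅ else (Finset.range (2 ^ (m - 2))).image (fun y => 2 ^ m + 2 ^ (m - 1) + 2 * y + 1)) ∪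
  (if 1 ∈ Q then ∅ else (Finset.range (2 ^ (m - 3))).image (fun y => 2 ^ m + 2 ^ (m - 2) + 2 * y + 1))

def H (m : ℕ) (Q : Finset ℕ) (t0 : ℕ) : Finset ℕ :=
  (Finset.range (m + 1)).biUnion (Bs Q t0) ∪ VO m Q

theorem mem_H (X : ℕ) : X ∈ H m Q t0 ↔ (∃ s ≤ m, X ∈ Bs Q t0 s) ∨ X ∈ VO m Q := by
  unfold H
  rw [Finset.mem_union, Finset.mem_biUnion]
  simp [Nat.lt_succ_iff]

theorem pow_rel (hm : 4 ≤ m) : (2:ℕ) ^ (m - 2) = 2 * 2 ^ (m - 3) ∧ (2:ℕ) ^ (m - 1) = 4 * 2 ^ (m - 3) ∧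
    (2:ℕ) ^ m = 8 * 2 ^ (m - 3) ∧ (2:ℕ) ^ (m + 1) = 16 * 2 ^ (m - 3) ∧ 2 ≤ (2:ℕ) ^ (m - 3) := by
  have e0 : m - 2 = (m - 3) + 1 := by omega
  have e1 : m - 1 = (m - 3) + 2 := by omega
  have e2 : m = (m - 3) + 3 := by omega
  have e3 : m + 1 = (m - 3) + 4 := by omega
  refine ⟨?_, ?_, ?_, ?_, ?_⟩
  · rw [e0, pow_add]; ring
  · rw [e1, pow_add]; ring
  · conv_lhs => rw [e2, pow_add]
    ring
  · rw [e3, pow_add]; ring
  · have : m - 3 = (m - 4) + 1 := by omega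
    rw [this, pow_succ]
    have : 0 < (2:ℕ) ^ (m - 4) := by positivity
    omega

theorem VO_range (hm : 4 ≤ m) (X : ℕ) (h : X ∈ VO m Q) : 2 ^ m ≤ X ∧ X < 2 ^ (m + 1) ∧ X % 2 = 1 := by
  obtain ⟨e1, e2, e3, e4, e5⟩ := pow_rel m hm
  unfold VO at h
  rw [Finset.mem_union] at h
  rcases h with h | h
  · split_ifs at h with h1
    · simp at h
    · rw [Finset.mem_image] at h
      obtain ⟨y, hy, rfl⟩ := h
      rw [Finset.mem_range] at hy
      omega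
  · split_ifs at h with h1
    · simp at h
    · rw [Finset.mem_image] at h
      obtain ⟨y, hy, rfl⟩ := h
      rw [Finset.mem_range] at hy
      omega

theorem H_range (hm : 4 ≤ m) (X : ℕ) (h : X ∈ H m Q t0) : 1 ≤ X ∧ X < 2 ^ (m + 1) := by
  rw [mem_H] at h
  rcases h with ⟨s, hs, h⟩ | h
  · obtain ⟨h1, h2⟩ := Bs_range Q t0 s X h
    have : (2:ℕ) ^ (s + 1) ≤ 2 ^ (m + 1) := Nat.pow_le_pow_right (by norm_num) (by omega)
    have : 0 < (2:ℕ) ^ s := by positivity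
    omega
  · have := VO_range m Q hm X h
    omega

theorem mem_H_odd (hm : 4 ≤ m) (h2 : 2 ≤ t0) (Z : ℕ) (h1 : 5 * 2 ^ (m - 2) ≤ Z) (h3 : Z < 2 ^ (m + 1))
    (hodd : Z % 2 = 1) : Z ∈ H m Q t0 := by
  obtain ⟨e1, e2, e3, e4, e5⟩ := pow_rel m hm
  rw [mem_H]
  rcases Nat.lt_or_ge Z (6 * 2 ^ (m - 2)) with h | h
  · by_cases hq : 1 ∈ Q
    · left; exact ⟨m, le_rfl, (Bs_mid Q t0 h2 m (by omega) Z h1 h).2 hq⟩
    · right; unfold VO
      rw [Finset.mem_union]; right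
      rw [if_neg hq, Finset.mem_image]
      refine ⟨(Z - 2 ^ m - 2 ^ (m - 2) - 1) / 2, ?_, ?_⟩
      · rw [Finset.mem_range]; omega
      · omega
  · by_cases hq : 0 ∈ Q
    · left; exact ⟨m, le_rfl, (Bs_high Q t0 h2 m (by omega) Z (by omega) h3).2 hq⟩
    · right; unfold VO
      rw [Finset.mem_union]; left
      rw [if_neg hq, Finset.mem_image]
      refine ⟨(Z - 2 ^ m - 2 ^ (m - 1) - 1) / 2, ?_, ?_⟩
      · rw [Finset.mem_range]; omega
      · omega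

theorem or_two_pow_lt (k : ℕ) (hk : k < m) : 2 ^ k ||| 2 ^ m = 2 ^ m + 2 ^ k := by
  have h : (2:ℕ) ^ k < 2 ^ m := Nat.pow_lt_pow_right (by norm_num) hk
  have := Nat.two_pow_add_eq_or_of_lt h 1
  rw [mul_one] at this
  rw [this, Nat.lor_comm]

theorem mem_H_bits (hm : 4 ≤ m) (h2 : 2 ≤ t0) (A k : ℕ) (hA : A < 2 ^ (m + 1)) (hk : k = m - 2 ∨ k = m - 1) :
    A ||| 2 ^ 0 ||| 2 ^ k ||| 2 ^ m ∈ H m Q t0 := by
  obtain ⟨e1, e2, e3, e4, e5⟩ := pow_rel m hm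
  apply mem_H_odd m Q t0 hm h2
  · have h1 : 2 ^ k ||| 2 ^ m ≤ A ||| 2 ^ 0 ||| 2 ^ k ||| 2 ^ m := by
      rw [Nat.lor_assoc (A ||| 2 ^ 0)]
      exact Nat.right_le_or
    rw [or_two_pow_lt m k (by omega)] at h1
    rcases hk with rfl | rfl <;> omega
  · apply Nat.or_lt_two_pow
    · apply Nat.or_lt_two_pow
      · apply Nat.or_lt_two_pow hA
        exact Nat.pow_lt_pow_right (by norm_num) (by omega)
      · exact Nat.pow_lt_pow_right (by norm_num) (by omega)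
    · exact Nat.pow_lt_pow_right (by norm_num) (by omega)
  · have : (A ||| 2 ^ 0 ||| 2 ^ k ||| 2 ^ m).testBit 0 = true := by
      simp only [Nat.testBit_or, Bool.or_eq_true, tb_pow]; simp
    rw [Nat.testBit_zero] at this
    simpa using this

theorem nA_mem (hm : 4 ≤ m) (h2 : 2 ≤ t0) (X : ℕ) (h : X ∈ H m Q t0) : nA m X ∈ H m Q t0 := by
  unfold nA
  split_ifs with hX
  · rw [mem_H] at h ⊢
    rcases h with ⟨s, hs, h⟩ | h
    · have := (Bs_range Q t0 s X h).1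
      have hsm : s < m := by
        by_contra hc
        have : s = m := by omega
        subst this; omega
      exact Or.inl ⟨s + 1, hsm, Bs_two_mul Q t0 s X h⟩
    · have := VO_range m Q hm X h; omega
  · apply mem_H_bits m Q t0 hm h2 _ _ _ (Or.inr rfl)
    calc 2 * X % 2 ^ m < 2 ^ m := Nat.mod_lt _ (by positivity)
      _ ≤ 2 ^ (m + 1) := Nat.pow_le_pow_right (by norm_num) (by omega)

theorem nB_mem (hm : 4 ≤ m) (h2 : 2 ≤ t0) (X : ℕ) (h : X ∈ H m Q t0) : nB m X ∈ H m Q t0 := by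
  unfold nB
  split_ifs with hX
  · rw [mem_H] at h ⊢
    rcases h with ⟨s, hs, h⟩ | h
    · have := (Bs_range Q t0 s X h).1
      have hsm : s < m := by
        by_contra hc
        have : s = m := by omega
        subst this; omega
      exact Or.inl ⟨s + 1, hsm, Bs_two_mul_add Q t0 s X h⟩
    · have := VO_range m Q hm X h; omega
  · apply mem_H_bits m Q t0 hm h2 _ _ _ (Or.inl rfl)
    calc 2 * X % 2 ^ m < 2 ^ m := Nat.mod_lt _ (by positivity)
      _ ≤ 2 ^ (m + 1) := Nat.pow_le_pow_right (by norm_num) (by omega)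

theorem c6_mem (hm : 4 ≤ m) (h2 : 2 ≤ t0) : c6 m ∈ H m Q t0 := by
  have := mem_H_bits m Q t0 hm h2 0 (m - 1) (by positivity) (Or.inr rfl)
  simpa [c6] using this

theorem z2_mem (hm : 4 ≤ m) (h2 : 2 ≤ t0) (hQ : 0 ∈ Q) : z2 m ∈ H m Q t0 := by
  obtain ⟨e1, e2, e3, e4, e5⟩ := pow_rel m hm
  rw [mem_H]
  left
  refine ⟨m, le_rfl, (Bs_high Q t0 h2 m (by omega) _ ?_ ?_).2 hQ⟩
  · have h1 : 2 ^ (m - 1) ||| 2 ^ m ≤ z2 m := by
      unfold z2
      rw [Nat.lor_comm (2 ^ (m - 1)) (2 ^ (m - 2)), Nat.lor_assoc]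
      exact Nat.right_le_or
    rw [or_two_pow_lt m (m - 1) (by omega)] at h1
    omega
  · unfold z2
    apply Nat.or_lt_two_pow
    · apply Nat.or_lt_two_pow <;> exact Nat.pow_lt_pow_right (by norm_num) (by omega)
    · exact Nat.pow_lt_pow_right (by norm_num) (by omega)

/-! ## Cardinality of `H` -/

theorem H_card (hm : 4 ≤ m) (h2 : 2 ≤ t0) (h0 : t0 + 1 ≤ m) (hQ : ∀ q ∈ Q, q < t0) :
    (H m Q t0).card = ∑ q ∈ Q, (2 ^ (m - q) - 1) + (2 ^ (m - t0) - 1)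
      + (if 0 ∈ Q then 0 else 2 ^ (m - 2)) + (if 1 ∈ Q then 0 else 2 ^ (m - 3)) := by
  obtain ⟨e1, e2, e3, e4, e5⟩ := pow_rel m hm
  have ht : t0 ∉ Q := fun h => lt_irrefl _ (hQ _ h)
  have hB : ((Finset.range (m + 1)).biUnion (Bs Q t0)).card = ∑ q ∈ Q, (2 ^ (m - q) - 1) + (2 ^ (m - t0) - 1) := by
    rw [Finset.card_biUnion, Bs_sum_card Q t0 hQ m]
    · have : (insert t0 Q).filter (· < m) = insert t0 Q := by
        apply Finset.filter_true_of_mem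
        intro x hx
        rw [Finset.mem_insert] at hx
        rcases hx with hx | hx
        · omega
        · have := hQ x hx; omega
      rw [this, Finset.sum_insert ht, add_comm]
    · intro s _ s' _ hss
      rw [Function.onFun, Finset.disjoint_left]
      intro X hX hX'
      have h1 := Bs_range Q t0 s X hX
      have h3 := Bs_range Q t0 s' X hX'
      rcases Nat.lt_or_gt_of_ne hss with h | h
      · have : (2:ℕ) ^ (s + 1) ≤ 2 ^ s' := Nat.pow_le_pow_right (by norm_num) (by omega)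
        omega
      · have : (2:ℕ) ^ (s' + 1) ≤ 2 ^ s := Nat.pow_le_pow_right (by norm_num) (by omega)
        omega
  have hV : (VO m Q).card = (if 0 ∈ Q then 0 else 2 ^ (m - 2)) + (if 1 ∈ Q then 0 else 2 ^ (m - 3)) := by
    unfold VO
    rw [Finset.card_union_of_disjoint]
    · congr 1
      · split_ifs with h
        · rfl
        · rw [Finset.card_image_of_injective _ (fun a b h => by omega), Finset.card_range]
      · split_ifs with h
        · rfl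
        · rw [Finset.card_image_of_injective _ (fun a b h => by omega), Finset.card_range]
    · rw [Finset.disjoint_left]
      intro X hX hX'
      split_ifs at hX hX'
      all_goals try (simp at hX; done)
      all_goals try (simp at hX'; done)
      rw [Finset.mem_image] at hX hX'
      obtain ⟨y, hy, hy'⟩ := hX
      obtain ⟨z, hz, hz'⟩ := hX'
      rw [Finset.mem_range] at hy hz
      omega
  unfold H
  rw [Finset.card_union_of_disjoint, hB, hV]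
  · ring
  · rw [Finset.disjoint_left]
    intro X hX hX'
    rw [Finset.mem_biUnion] at hX
    obtain ⟨s, hs, hX⟩ := hX
    rw [Finset.mem_range] at hs
    have h1 := Bs_range Q t0 s X hX
    have h3 := VO_range m Q hm X hX'
    have hsm : s = m := by
      by_contra hc
      have : (2:ℕ) ^ (s + 1) ≤ 2 ^ m := Nat.pow_le_pow_right (by norm_num) (by omega)
      omega
    subst hsm
    unfold VO at hX'
    rw [Finset.mem_union] at hX'
    rcases hX' with hX' | hX'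
    · split_ifs at hX' with h
      · simp at hX'
      · rw [Finset.mem_image] at hX'
        obtain ⟨y, hy, hy'⟩ := hX'
        rw [Finset.mem_range] at hy
        exact h ((Bs_high Q t0 h2 s (by omega) X (by omega) (by omega)).1 hX)
    · split_ifs at hX' with h
      · simp at hX'
      · rw [Finset.mem_image] at hX'
        obtain ⟨y, hy, hy'⟩ := hX'
        rw [Finset.mem_range] at hy
        exact h ((Bs_mid Q t0 h2 s (by omega) X (by omega) (by omega)).1 hX)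

end Pool.Agent.H94.Magic
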