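import Mathlib

/-!
# Magic numbers (MP_c3e474_lc): definitions

`Good n α` : there is an `n`-state NFA over two letters with a single start state and exactly `α`
left quotients, together with a fooling set of size `n` (pairs `(x i, y i)`) which certifies that it is
minimal, and with the extra data (`ℓ` = the length of a shortest accepted word, `v` = an accepted word
of length `ℓ`) that allows us to add new start states in front of it (`good_succ` in `Basic.lean`).
-/

set_option autoImplicit false

namespace Pool.Agent.H94.Magic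

/-- `Good n α`: an `n`-state NFA with `α` left quotients, a fooling set of size `n`, and the data needed
to prolong it by a new start state. -/
def Good (n α : ℕ) : Prop :=
  ∃ (M : NFA (Fin 2) (Fin n)) (ℓ : ℕ) (v : List (Fin 2)) (x y : Fin n → List (Fin 2)),
    (∃ q : Fin n, M.start = {q}) ∧
    Nat.card (Set.range (fun u : List (Fin 2) =>
      ({w : List (Fin 2) | u ++ w ∈ M.accepts} : Set (List (Fin 2))))) = α ∧
    (∀ w ∈ M.accepts, ℓ ≤ w.length) ∧
    v ∈ M.accepts ∧ v.length = ℓ ∧
    (∀ u : List (Fin 2), (∃ w, u ++ w ∈ M.accepts) → ∃ w, u ++ w ∈ M.accepts ∧ w.length ≤ ℓ) ∧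
    (∀ i, x i ++ y i ∈ M.accepts) ∧
    (∀ i j, i ≠ j → x i ++ y j ∉ M.accepts ∨ x j ++ y i ∉ M.accepts) ∧
    (∀ i, (y i).length ≤ ℓ ∨ ((y i).length = ℓ + 1 ∧ x i ++ (0 :: v) ∉ M.accepts))

/-- `NonMagic n α`: some minimal `n`-state NFA over two letters (single start state; no NFA with fewer
states, even with several start states, accepts the same language) has exactly `α` left quotients. -/
def NonMagic (n α : ℕ) : Prop :=
  ∃ M : NFA (Fin 2) (Fin n), (∃ q : Fin n, M.start = {q}) ∧
    (∀ m : ℕ, m < n → ∀ N : NFA (Fin 2) (Fin m), N.accepts ≠ M.accepts) ∧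
    Nat.card (Set.range (fun u : List (Fin 2) =>
      ({w : List (Fin 2) | u ++ w ∈ M.accepts} : Set (List (Fin 2))))) = α

end Pool.Agent.H94.Magic
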