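import Pool.Agent.H94.Magic.GadgetDefs
import Pool.Agent.H94.Magic.Basic
import Pool.Agent.H94.Magic.Closure

/-!
# The gadget theorem
-/

set_option autoImplicit false

namespace Pool.Agent.H94.Magic

variable (m : ℕ) (Q : Finset ℕ) (t0 t1 : ℕ)

/-- all codes of reachable sets -/
def G (m : ℕ) (Q : Finset ℕ) (t0 t1 : ℕ) : Finset (ℕ × Bool) :=
  ((Finset.range (t1 + 1)).image (fun t => ((2:ℕ) ^ t, false)) ∪
    (if t1 = m then (if t0 + 1 = m then {(z1 m, false), (z2 m, false)} else {(z1 m, false)}) else ∅)) ∪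
  (H m Q t0).image (fun X => (X, true))

theorem mem_G (c : ℕ × Bool) : c ∈ G m Q t0 t1 ↔ (∃ t ≤ t1, c = (2 ^ t, false)) ∨
    (t1 = m ∧ c = (z1 m, false)) ∨ (t1 = m ∧ t0 + 1 = m ∧ c = (z2 m, false)) ∨
    (∃ X ∈ H m Q t0, c = (X, true)) := by
  unfold G
  rw [Finset.mem_union, Finset.mem_union, Finset.mem_image, Finset.mem_image]
  constructor
  · rintro ((⟨t, ht, rfl⟩ | h) | ⟨X, hX, rfl⟩)
    · exact Or.inl ⟨t, by rw [Finset.mem_range] at ht; omega, rfl⟩
    · split_ifs at h with h1 h2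
      · rw [Finset.mem_insert, Finset.mem_singleton] at h
        rcases h with h | h
        · exact Or.inr (Or.inl ⟨h1, h⟩)
        · exact Or.inr (Or.inr (Or.inl ⟨h1, h2, h⟩))
      · rw [Finset.mem_singleton] at h
        exact Or.inr (Or.inl ⟨h1, h⟩)
      · simp at h
    · exact Or.inr (Or.inr (Or.inr ⟨X, hX, rfl⟩))
  · rintro (⟨t, ht, rfl⟩ | ⟨h1, rfl⟩ | ⟨h1, h2, rfl⟩ | ⟨X, hX, rfl⟩)
    · exact Or.inl (Or.inl ⟨t, by rw [Finset.mem_range]; omega, rfl⟩)
    · left; right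
      rw [if_pos h1]
      split_ifs <;> simp
    · left; right
      rw [if_pos h1, if_pos h2]; simp
    · exact Or.inr ⟨X, hX, rfl⟩

theorem z1_ne_pow (hm : 4 ≤ m) (t : ℕ) : z1 m ≠ 2 ^ t := by
  intro h
  have h1 : (2 ^ t).testBit (m - 2) = true := by rw [← h, tb_z1]; exact Or.inl rfl
  have h2 : (2 ^ t).testBit m = true := by rw [← h, tb_z1]; exact Or.inr rfl
  rw [tb_pow] at h1 h2
  omega

theorem z2_ne_pow (hm : 4 ≤ m) (t : ℕ) : z2 m ≠ 2 ^ t := by
  intro h
  have h1 : (2 ^ t).testBit (m - 2) = true := by rw [← h, tb_z2]; exact Or.inr (Or.inl rfl)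
  have h2 : (2 ^ t).testBit m = true := by rw [← h, tb_z2]; exact Or.inr (Or.inr rfl)
  rw [tb_pow] at h1 h2
  omega

theorem z1_ne_z2 (hm : 4 ≤ m) : z1 m ≠ z2 m := by
  intro h
  have h1 : (z1 m).testBit (m - 1) = true := by rw [h, tb_z2]; exact Or.inl rfl
  rw [tb_z1] at h1
  omega

theorem G_card (hm : 4 ≤ m) (h2 : 2 ≤ t0) (h0 : t0 + 1 ≤ m) (hQ : ∀ q ∈ Q, q < t0) :
    (G m Q t0 t1).card = cnt m Q t0 t1 := by
  unfold G cnt
  rw [Finset.card_union_of_disjoint, Finset.card_union_of_disjoint]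
  · rw [Finset.card_image_of_injective _ (fun a b h => by simpa using h),
      Finset.card_image_of_injective _ (fun a b h => by
        have : (2:ℕ) ^ a = 2 ^ b := by simpa using h
        exact Nat.pow_right_injective (le_refl 2) this),
      Finset.card_range, H_card m Q t0 hm h2 h0 hQ]
    have : (if t1 = m then (if t0 + 1 = m then {(z1 m, false), (z2 m, false)} else {(z1 m, false)})
        else (∅ : Finset (ℕ × Bool))).card = (if t1 = m then (if t0 + 1 = m then 2 else 1) else 0) := by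
      split_ifs
      · rw [Finset.card_pair]
        intro h
        exact z1_ne_z2 m hm (by simpa using h)
      · rfl
      · rfl
    rw [this]
    ring
  · rw [Finset.disjoint_left]
    intro c hc hc'
    rw [Finset.mem_image] at hc
    obtain ⟨t, _, rfl⟩ := hc
    split_ifs at hc' with h1 h2
    · rw [Finset.mem_insert, Finset.mem_singleton] at hc'
      rcases hc' with h | h
      · exact z1_ne_pow m hm t (by simpa using h.symm)
      · exact z2_ne_pow m hm t (by simpa using h.symm)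
    · rw [Finset.mem_singleton] at hc'
      exact z1_ne_pow m hm t (by simpa using hc'.symm)
    · simp at hc'
  · rw [Finset.disjoint_left]
    intro c hc hc'
    rw [Finset.mem_image] at hc'
    obtain ⟨X, _, rfl⟩ := hc'
    rw [Finset.mem_union, Finset.mem_image] at hc
    rcases hc with ⟨t, _, h⟩ | h
    · simp at h
    · split_ifs at h <;> simp at h

section
variable (hm : 4 ≤ m) (h2 : 2 ≤ t0) (h0 : t0 + 1 ≤ m)
    (h01 : t0 ≤ t1) (h1 : t1 ≤ m) (hQ : ∀ q ∈ Q, q < t0)
    (hcase : (0 ∈ Q ∧ m - 2 ∉ Q ∧ (t0 + 1 = m ∨ t0 < t1)) ∨ (0 ∉ Q ∧ 1 ∈ Q ∧ t1 < m))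
include hm h2 h0 h01 h1 hQ hcase

theorem G_closed (c : ℕ × Bool) (hc : c ∈ G m Q t0 t1) (a : Fin 2) :
    ∃ c' ∈ G m Q t0 t1, dec m c' = (gad m Q t0 t1).stepSet (dec m c) a := by
  have ht0 : t0 ∉ Q := fun h => lt_irrefl _ (hQ _ h)
  rw [mem_G] at hc
  rcases hc with ⟨t, ht, rfl⟩ | ⟨h3, rfl⟩ | ⟨h3, h4, rfl⟩ | ⟨X, hX, rfl⟩
  · rcases Nat.lt_or_ge t m with htm | htm
    · fin_cases a
      · rcases Nat.lt_or_ge t t1 with h | h
        · exact ⟨_, (mem_G m Q t0 t1 _).2 (Or.inl ⟨t + 1, h, rfl⟩), T1 m Q t0 t1 t htm h⟩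
        · refine ⟨_, (mem_G m Q t0 t1 _).2 (Or.inr (Or.inr (Or.inr ⟨2 ^ (t + 1), ?_, rfl⟩))), T2 m Q t0 t1 t htm h⟩
          rw [mem_H]; left
          exact ⟨t + 1, htm, (two_pow_mem_Bs Q t0 hQ (t + 1)).2 (by omega)⟩
      · by_cases hq : t ∈ Q
        · refine ⟨_, (mem_G m Q t0 t1 _).2 (Or.inr (Or.inr (Or.inr ⟨2 ^ (t + 1) + 1, ?_, rfl⟩))),
            T3 m Q t0 t1 t htm hq⟩
          rw [mem_H]; left
          exact ⟨t + 1, htm, (mem_Bs_succ Q t0 t _).2 (Or.inr (Or.inl ⟨hq, rfl⟩))⟩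
        · rcases Nat.lt_or_ge t t0 with h | h
          · exact ⟨_, (mem_G m Q t0 t1 _).2 (Or.inl ⟨t + 1, by omega, rfl⟩), T5 m Q t0 t1 t htm hq h⟩
          · refine ⟨_, (mem_G m Q t0 t1 _).2 (Or.inr (Or.inr (Or.inr ⟨2 ^ (t + 1), ?_, rfl⟩))),
              T4 m Q t0 t1 t htm hq h⟩
            rw [mem_H]; left
            exact ⟨t + 1, htm, (two_pow_mem_Bs Q t0 hQ (t + 1)).2 (by omega)⟩
    · have htm' : t = m := by omega
      have ht1 : t1 = m := by omega
      subst htm'
      fin_cases a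
      · exact ⟨_, (mem_G t Q t0 t1 _).2 (Or.inr (Or.inr (Or.inr ⟨c6 t, c6_mem t Q t0 hm h2, rfl⟩))),
          T6 t Q t0 t1 hm⟩
      · exact ⟨_, (mem_G t Q t0 t1 _).2 (Or.inr (Or.inl ⟨ht1, rfl⟩)), T7 t Q t0 t1 hm⟩
  · have hq : 0 ∈ Q ∧ m - 2 ∉ Q := by
      rcases hcase with h | h
      · exact ⟨h.1, h.2.1⟩
      · omega
    fin_cases a
    · exact ⟨_, (mem_G m Q t0 t1 _).2 (Or.inr (Or.inr (Or.inr ⟨c6 m, c6_mem m Q t0 hm h2, rfl⟩))),
        T8 m Q t0 t1 hm h3⟩
    · by_cases h5 : t0 + 1 = m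
      · exact ⟨_, (mem_G m Q t0 t1 _).2 (Or.inr (Or.inr (Or.inl ⟨h3, h5, rfl⟩))), T10 m Q t0 t1 hm h5 hq.2⟩
      · exact ⟨_, (mem_G m Q t0 t1 _).2 (Or.inr (Or.inr (Or.inr ⟨z2 m, z2_mem m Q t0 hm h2 hq.1, rfl⟩))),
          T9 m Q t0 t1 hm (by omega) hq.2⟩
  · have hq : 0 ∈ Q ∧ m - 2 ∉ Q := by
      rcases hcase with h | h
      · exact ⟨h.1, h.2.1⟩
      · omega
    have hq1 : m - 1 ∉ Q := fun h => by have := hQ _ h; omega
    fin_cases a
    · exact ⟨_, (mem_G m Q t0 t1 _).2 (Or.inr (Or.inr (Or.inr ⟨c6 m, c6_mem m Q t0 hm h2, rfl⟩))),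
        T11 m Q t0 t1 hm h3⟩
    · exact ⟨_, (mem_G m Q t0 t1 _).2 (Or.inr (Or.inr (Or.inr ⟨z2 m, z2_mem m Q t0 hm h2 hq.1, rfl⟩))),
        T12 m Q t0 t1 hm h4 hq.2 hq1⟩
  · have hXr := (H_range m Q t0 hm X hX).2
    fin_cases a
    · exact ⟨_, (mem_G m Q t0 t1 _).2 (Or.inr (Or.inr (Or.inr ⟨nA m X, nA_mem m Q t0 hm h2 X hX, rfl⟩))),
        TA m Q t0 t1 hm X hXr⟩
    · exact ⟨_, (mem_G m Q t0 t1 _).2 (Or.inr (Or.inr (Or.inr ⟨nB m X, nB_mem m Q t0 hm h2 X hX, rfl⟩))),
        TB m Q t0 t1 hm X hXr⟩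

/-! ## Reachability -/

omit hm h2 h0 h01 hQ hcase in
theorem eval_pow (t : ℕ) (ht : t ≤ t1) : (gad m Q t0 t1).eval (List.replicate t 0) = dec m (2 ^ t, false) := by
  induction t with
  | zero =>
    rw [dec_pow m 0 (by omega)]
    rfl
  | succ t ih =>
    rw [List.replicate_succ', NFA.eval_append_singleton, ih (by omega), ← T1 m Q t0 t1 t (by omega) (by omega)]

omit h1 hm h2 h0 h01 hQ hcase in
theorem reach_step {c c' : ℕ × Bool} {a : Fin 2}
    (h : ∃ u : List (Fin 2), (gad m Q t0 t1).eval u = dec m c)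
    (hs : dec m c' = (gad m Q t0 t1).stepSet (dec m c) a) :
    ∃ u : List (Fin 2), (gad m Q t0 t1).eval u = dec m c' := by
  obtain ⟨u, hu⟩ := h
  exact ⟨u ++ [a], by rw [NFA.eval_append_singleton, hu, hs]⟩

omit h2 hcase in
theorem reach_B (s : ℕ) (hs : s ≤ m) (X : ℕ) (hX : X ∈ Bs Q t0 s) :
    ∃ u : List (Fin 2), (gad m Q t0 t1).eval u = dec m (X, true) := by
  induction s generalizing X with
  | zero => simp [Bs] at hX
  | succ s ih =>
    rw [mem_Bs_succ] at hX
    rcases hX with hX | ⟨hq, rfl⟩ | ⟨hq, rfl, rfl⟩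
    · have hr := ih (by omega) _ hX
      have hr2 := Bs_range Q t0 s _ hX
      have hsm : (2:ℕ) ^ (s + 1) ≤ 2 ^ m := Nat.pow_le_pow_right (by norm_num) hs
      have hsm2 : (2:ℕ) ^ m ≤ 2 ^ (m + 1) := Nat.pow_le_pow_right (by norm_num) (by omega)
      rcases Nat.even_or_odd' X with ⟨x, hx | hx⟩
      · have h := TA m Q t0 t1 (by omega) (X / 2) (by omega)
        have e : nA m (X / 2) = X := by
          unfold nA; rw [if_pos (by omega)]; omega
        rw [e] at h
        exact reach_step m Q t0 t1 hr h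
      · have h := TB m Q t0 t1 (by omega) (X / 2) (by omega)
        have e : nB m (X / 2) = X := by
          unfold nB; rw [if_pos (by omega)]; omega
        rw [e] at h
        exact reach_step m Q t0 t1 hr h
    · have := hQ s hq
      exact reach_step m Q t0 t1 ⟨_, eval_pow m Q t0 t1 h1 s (by omega)⟩ (T3 m Q t0 t1 s (by omega) hq)
    · exact reach_step m Q s t1 ⟨_, eval_pow m Q s t1 h1 s (by omega)⟩ (T4 m Q s t1 s (by omega) hq le_rfl)

theorem reach_H (X : ℕ) (hX : X ∈ H m Q t0) :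
    ∃ u : List (Fin 2), (gad m Q t0 t1).eval u = dec m (X, true) := by
  obtain ⟨e1, e2, e3, e4, e5⟩ := pow_rel m hm
  rw [mem_H] at hX
  rcases hX with ⟨s, hs, hX⟩ | hX
  · exact reach_B m Q t0 t1 hm h0 h01 h1 hQ s hs X hX
  · have orlem : ∀ k y : ℕ, k < m → 1 ≤ k → 2 * y < 2 ^ k →
        (2 ^ k + 2 * y) ||| 2 ^ 0 ||| 2 ^ k ||| 2 ^ m = 2 ^ m + 2 ^ k + 2 * y + 1 := by
      intro k y hk hk1 hy
      have a1 : 2 ^ k + 2 * y = 2 ^ k ||| 2 * y := by
        have := Nat.two_pow_add_eq_or_of_lt hy 1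
        rwa [mul_one] at this
      have a2 : 2 * y + 1 = 2 * y ||| 1 := by
        have := Nat.two_pow_add_eq_or_of_lt (show 1 < 2 ^ 1 by norm_num) y
        simpa using this
      have a3 : 2 ^ k + (2 * y + 1) = 2 ^ k ||| (2 * y + 1) := by
        have : 2 * y + 1 < 2 ^ k := by
          have : k = (k - 1) + 1 := by omega
          rw [this, pow_succ] at hy ⊢
          omega
        have := Nat.two_pow_add_eq_or_of_lt this 1
        rwa [mul_one] at this
      have a4 : 2 ^ m + (2 ^ k + (2 * y + 1)) = 2 ^ m ||| (2 ^ k + (2 * y + 1)) := by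
        have : 2 ^ k + (2 * y + 1) < 2 ^ m := by
          have h3 : (2:ℕ) ^ (k + 1) ≤ 2 ^ m := Nat.pow_le_pow_right (by norm_num) hk
          have h4 : (2:ℕ) ^ (k + 1) = 2 * 2 ^ k := by ring
          have h5 : 2 * y + 1 < 2 ^ k := by
            have : k = (k - 1) + 1 := by omega
            rw [this, pow_succ] at hy ⊢
            omega
          omega
        have := Nat.two_pow_add_eq_or_of_lt this 1
        rwa [mul_one] at this
      have a5 : 2 ^ m + 2 ^ k + 2 * y + 1 = 2 ^ m + (2 ^ k + (2 * y + 1)) := by ring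
      rw [a5, a4, a3, a2, a1]
      apply Nat.eq_of_testBit_eq
      intro j
      simp only [Nat.testBit_or, pow_zero]
      cases (2 ^ k).testBit j <;> cases (2 ^ m).testBit j <;> cases (2 * y).testBit j <;>
        cases Nat.testBit 1 j <;> rfl
    unfold VO at hX
    rw [Finset.mem_union] at hX
    rcases hX with hX | hX
    · split_ifs at hX with hq
      · simp at hX
      · rw [Finset.mem_image] at hX
        obtain ⟨y, hy, rfl⟩ := hX
        rw [Finset.mem_range] at hy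
        have hq1 : 1 ∈ Q := by
          rcases hcase with h | h
          · exact absurd h.1 hq
          · exact h.2.1
        have hB : 2 ^ m + 2 ^ (m - 2) + y ∈ Bs Q t0 m :=
          (Bs_mid Q t0 h2 m (by omega) _ (by omega) (by omega)).2 hq1
        have hr := reach_B m Q t0 t1 hm h0 h01 h1 hQ m le_rfl _ hB
        have h := TA m Q t0 t1 hm (2 ^ m + 2 ^ (m - 2) + y) (by omega)
        have e : nA m (2 ^ m + 2 ^ (m - 2) + y) = 2 ^ m + 2 ^ (m - 1) + 2 * y + 1 := by
          unfold nA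
          rw [if_neg (by omega)]
          have : 2 * (2 ^ m + 2 ^ (m - 2) + y) % 2 ^ m = 2 ^ (m - 1) + 2 * y := by
            have h3 : 2 * (2 ^ m + 2 ^ (m - 2) + y) = (2 ^ (m - 1) + 2 * y) + 2 ^ m * 2 := by omega
            rw [h3, Nat.add_mul_mod_self_left, Nat.mod_eq_of_lt (by omega)]
          rw [this]
          exact orlem (m - 1) y (by omega) (by omega) (by omega)
        rw [e] at h
        exact reach_step m Q t0 t1 hr h
    · split_ifs at hX with hq
      · simp at hX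
      · rw [Finset.mem_image] at hX
        obtain ⟨y, hy, rfl⟩ := hX
        rw [Finset.mem_range] at hy
        have hq0 : 0 ∈ Q := by
          rcases hcase with h | h
          · exact h.1
          · exact absurd h.2.1 hq
        have hB : 2 ^ m + 2 ^ (m - 1) + (2 ^ (m - 3) + y) ∈ Bs Q t0 m :=
          (Bs_high Q t0 h2 m (by omega) _ (by omega) (by omega)).2 hq0
        have hr := reach_B m Q t0 t1 hm h0 h01 h1 hQ m le_rfl _ hB
        have h := TB m Q t0 t1 hm (2 ^ m + 2 ^ (m - 1) + (2 ^ (m - 3) + y)) (by omega)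
        have e : nB m (2 ^ m + 2 ^ (m - 1) + (2 ^ (m - 3) + y)) = 2 ^ m + 2 ^ (m - 2) + 2 * y + 1 := by
          unfold nB
          rw [if_neg (by omega)]
          have : 2 * (2 ^ m + 2 ^ (m - 1) + (2 ^ (m - 3) + y)) % 2 ^ m = 2 ^ (m - 2) + 2 * y := by
            have h3 : 2 * (2 ^ m + 2 ^ (m - 1) + (2 ^ (m - 3) + y)) = (2 ^ (m - 2) + 2 * y) + 2 ^ m * 3 := by
              omega
            rw [h3, Nat.add_mul_mod_self_left, Nat.mod_eq_of_lt (by omega)]
          rw [this]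
          exact orlem (m - 2) y (by omega) (by omega) (by omega)
        rw [e] at h
        exact reach_step m Q t0 t1 hr h

theorem G_reach (c : ℕ × Bool) (hc : c ∈ G m Q t0 t1) :
    ∃ u : List (Fin 2), (gad m Q t0 t1).eval u = dec m c := by
  rw [mem_G] at hc
  rcases hc with ⟨t, ht, rfl⟩ | ⟨h3, rfl⟩ | ⟨h3, h4, rfl⟩ | ⟨X, hX, rfl⟩
  · exact ⟨_, eval_pow m Q t0 t1 h1 t ht⟩
  · exact reach_step m Q t0 t1 ⟨_, eval_pow m Q t0 t1 h1 m (by omega)⟩ (T7 m Q t0 t1 hm)
  · have hq : 0 ∈ Q ∧ m - 2 ∉ Q := by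
      rcases hcase with h | h
      · exact ⟨h.1, h.2.1⟩
      · omega
    exact reach_step m Q t0 t1
      (reach_step m Q t0 t1 ⟨_, eval_pow m Q t0 t1 h1 m (by omega)⟩ (T7 m Q t0 t1 hm))
      (T10 m Q t0 t1 hm h4 hq.2)
  · exact reach_H m Q t0 t1 hm h2 h0 h01 h1 hQ hcase X hX

/-! ## Distinctness -/

theorem G_range (c : ℕ × Bool) (hc : c ∈ G m Q t0 t1) : c.1 < 2 ^ (m + 1) := by
  rw [mem_G] at hc
  rcases hc with ⟨t, ht, rfl⟩ | ⟨h3, rfl⟩ | ⟨h3, h4, rfl⟩ | ⟨X, hX, rfl⟩
  · exact Nat.pow_lt_pow_right (by norm_num) (by omega)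
  · apply Nat.or_lt_two_pow <;> exact Nat.pow_lt_pow_right (by norm_num) (by omega)
  · apply Nat.or_lt_two_pow
    · apply Nat.or_lt_two_pow <;> exact Nat.pow_lt_pow_right (by norm_num) (by omega)
    · exact Nat.pow_lt_pow_right (by norm_num) (by omega)
  · exact (H_range m Q t0 hm X hX).2

theorem no_both (X : ℕ) (hf : (X, false) ∈ G m Q t0 t1) (ht : (X, true) ∈ G m Q t0 t1) (q : ℕ) (hq : q ∈ Q) :
    X.testBit q = false := by
  have hq0 := hQ q hq
  rw [mem_G] at hf ht
  have hX : X ∈ H m Q t0 := by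
    rcases ht with ⟨t, ht, h⟩ | ⟨h3, h⟩ | ⟨h3, h4, h⟩ | ⟨Y, hY, h⟩
    · simp at h
    · simp at h
    · simp at h
    · have : X = Y := by simpa using h
      rwa [this]
  by_contra hb
  have hb : X.testBit q = true := by simpa using hb
  rcases hf with ⟨t, ht, h⟩ | ⟨h3, h⟩ | ⟨h3, h4, h⟩ | ⟨Y, hY, h⟩
  · have hX' : X = 2 ^ t := by simpa using h
    subst hX'
    rw [tb_pow] at hb
    subst hb
    rw [mem_H] at hX
    rcases hX with ⟨s, hs, hX⟩ | hX
    · have hr := Bs_range Q t0 s _ hX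
      have hqs : q = s := by
        rcases Nat.lt_trichotomy q s with h | h | h
        · have := Nat.pow_lt_pow_right (show 1 < 2 by norm_num) h
          omega
        · exact h
        · have := Nat.pow_le_pow_right (show 0 < 2 by norm_num) (show s + 1 ≤ q by omega)
          omega
      subst hqs
      rw [two_pow_mem_Bs Q t0 hQ] at hX
      omega
    · have := VO_range m Q hm _ hX
      have h5 := Nat.pow_lt_pow_right (show 1 < 2 by norm_num) (show q < m by omega)
      omega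
  · have hX' : X = z1 m := by simpa using h
    rw [hX', tb_z1] at hb
    rcases hcase with h | h
    · rcases hb with hb | hb
      · rw [hb] at hq; exact h.2.1 hq
      · omega
    · omega
  · have hX' : X = z2 m := by simpa using h
    rw [hX', tb_z2] at hb
    rcases hcase with h | h
    · rcases hb with hb | hb | hb
      · omega
      · rw [hb] at hq; exact h.2.1 hq
      · omega
    · omega
  · simp at h

theorem G_dist (c : ℕ × Bool) (hc : c ∈ G m Q t0 t1) (c' : ℕ × Bool) (hc' : c' ∈ G m Q t0 t1)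
    (h : (gad m Q t0 t1).acceptsFrom (dec m c) = (gad m Q t0 t1).acceptsFrom (dec m c')) : c = c' := by
  have hr := G_range m Q t0 t1 hm h2 h0 h01 h1 hQ hcase c hc
  have hr' := G_range m Q t0 t1 hm h2 h0 h01 h1 hQ hcase c' hc'
  have hbit : ∀ (d : ℕ × Bool) (i : ℕ), i ≤ m →
      (rdw m i ∈ (gad m Q t0 t1).acceptsFrom (dec m d) ↔ d.1.testBit i = true) := by
    intro d i hi
    rw [Kd_rdw m Q t0 t1 hm i hi]
    constructor
    · rintro ⟨s, hs, hsi⟩
      rcases hs with ⟨_, hs⟩ | ⟨hs, _⟩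
      · rwa [hsi] at hs
      · omega
    · intro hd
      exact ⟨⟨i, by omega⟩, Or.inl ⟨hi, hd⟩, rfl⟩
  have h1' : c.1 = c'.1 := by
    apply Nat.eq_of_testBit_eq
    intro i
    rcases Nat.lt_or_ge m i with hi | hi
    · have e1 : c.1 < 2 ^ i := lt_of_lt_of_le hr (Nat.pow_le_pow_right (by norm_num) hi)
      have e2 : c'.1 < 2 ^ i := lt_of_lt_of_le hr' (Nat.pow_le_pow_right (by norm_num) hi)
      rw [Nat.testBit_lt_two_pow e1, Nat.testBit_lt_two_pow e2]
    · have e1 := hbit c i hi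
      have e2 := hbit c' i hi
      rw [h] at e1
      rw [Bool.eq_iff_iff, ← e1, ← e2]
  have hW := Kd_w m Q t0 t1 hm (fun q hq => by have := hQ q hq; omega)
  obtain ⟨X, f⟩ := c
  obtain ⟨X', f'⟩ := c'
  simp only at h1'
  subst h1'
  cases f <;> cases f'
  · rfl
  · exfalso
    have hw := (hW (dec m (X, true))).2 ⟨⟨m + 1, by omega⟩, Or.inr ⟨rfl, rfl⟩, Or.inr rfl⟩
    rw [← h, hW] at hw
    obtain ⟨s, hs, hsq⟩ := hw
    rcases hs with ⟨hsm, hs⟩ | ⟨_, hs⟩
    · rcases hsq with hsq | hsq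
      · rw [no_both m Q t0 t1 hm h2 h0 h01 h1 hQ hcase X hc hc' _ hsq] at hs
        simp at hs
      · omega
    · simp at hs
  · exfalso
    have hw := (hW (dec m (X, true))).2 ⟨⟨m + 1, by omega⟩, Or.inr ⟨rfl, rfl⟩, Or.inr rfl⟩
    rw [h, hW] at hw
    obtain ⟨s, hs, hsq⟩ := hw
    rcases hs with ⟨hsm, hs⟩ | ⟨_, hs⟩
    · rcases hsq with hsq | hsq
      · rw [no_both m Q t0 t1 hm h2 h0 h01 h1 hQ hcase X hc' hc _ hsq] at hs
        simp at hs
      · omega
    · simp at hs
  · rfl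

/-! ## The fooling set -/

omit h2 h0 h01 hQ hcase in
theorem eval_apow (i : ℕ) (hi : i ≤ m) : (∀ q ∈ (gad m Q t0 t1).eval (List.replicate i 0),
      q.val = i ∨ (q.val = m + 1 ∧ t1 < i)) ∧
    (⟨i, by omega⟩ : Fin (m + 2)) ∈ (gad m Q t0 t1).eval (List.replicate i 0) := by
  induction i with
  | zero =>
    refine ⟨fun q hq => ?_, rfl⟩
    left
    have : q = 0 := hq
    subst this; simp
  | succ i ih =>
    obtain ⟨ih1, ih2⟩ := ih (by omega)
    rw [List.replicate_succ', NFA.eval_append_singleton]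
    constructor
    · intro q hq
      rw [NFA.mem_stepSet] at hq
      obtain ⟨p, hp, hpq⟩ := hq
      have hp' := ih1 p hp
      have hpq' : tr m Q t0 t1 p.val 0 q.val := hpq
      rcases hpq' with ⟨h1, _, h | ⟨_, h⟩⟩ | ⟨_, h, _⟩ | ⟨h1, _, h | h | h | h⟩ | ⟨_, h, _⟩ | ⟨h1, h | ⟨h, _⟩⟩
      all_goals first | exact absurd h (by decide) | omega
    · rw [NFA.mem_stepSet]
      exact ⟨_, ih2, Or.inl ⟨by simp; omega, rfl, Or.inl rfl⟩⟩

/-- The word that creates the flag `w`. -/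
theorem exists_xw : ∃ xw : List (Fin 2),
    (⟨m + 1, by omega⟩ : Fin (m + 2)) ∈ (gad m Q t0 t1).eval xw ∧
    (∀ q ∈ (gad m Q t0 t1).eval xw, q.val = m + 1 ∨ (q.val < m ∧ q.val ≤ t1 ∧ q.val ∉ Q)) ∧
    ((∀ q ∈ (gad m Q t0 t1).eval xw, q.val ≠ m - 3) ∨ (∀ q ∈ (gad m Q t0 t1).eval xw, q.val ≠ m - 2)) := by
  have ht0 : t0 ∉ Q := fun h => lt_irrefl _ (hQ _ h)
  have hnq : ∀ q, t0 ≤ q → q ∉ Q := fun q hq h => by have := hQ q h; omega
  by_cases hA : t0 < t1 ∧ t0 + 1 < m
  · refine ⟨List.replicate t0 0 ++ [1], ?_⟩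
    rw [NFA.eval_append_singleton, eval_pow m Q t0 t1 h1 t0 h01, ← T4 m Q t0 t1 t0 (by omega) ht0 le_rfl]
    refine ⟨Or.inr ⟨rfl, rfl⟩, ?_, ?_⟩
    · rintro q (⟨_, hq⟩ | ⟨hq, _⟩)
      · simp only [tb_pow] at hq
        rw [hq]
        exact Or.inr ⟨by omega, by omega, hnq _ (by omega)⟩
      · exact Or.inl hq
    · by_cases h3 : t0 + 1 = m - 3
      · right
        rintro q (⟨_, hq⟩ | ⟨hq, _⟩)
        · simp only [tb_pow] at hq; omega
        · omega
      · left
        rintro q (⟨_, hq⟩ | ⟨hq, _⟩)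
        · simp only [tb_pow] at hq; omega
        · omega
  · rcases hcase with ⟨hq0, hqm, hc⟩ | ⟨hq0, hq1, hc⟩
    · -- t0 = m - 1
      have ht : t0 + 1 = m := by omega
      have key : ∀ k, k ≤ m - 2 → (gad m Q t0 t1).eval ([1] ++ List.replicate k 0) = dec m (3 * 2 ^ k, true) := by
        intro k hk
        induction k with
        | zero =>
          have h := T3 m Q t0 t1 0 (by omega) hq0
          have h' := eval_pow m Q t0 t1 h1 0 (by omega)
          simp only [List.replicate_zero, List.append_nil, pow_zero, mul_one] at h' ⊢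
          rw [show ([1] : List (Fin 2)) = [] ++ [1] from rfl, NFA.eval_append_singleton, h']
          have h3 : (3 : ℕ) = 2 ^ (0 + 1) + 1 := by norm_num
          rw [h3, h]
          rfl
        | succ k ih =>
          rw [List.replicate_succ', ← List.append_assoc, NFA.eval_append_singleton, ih (by omega)]
          have hlt : 3 * 2 ^ k < 2 ^ m := by
            have : (2:ℕ) ^ (k + 2) ≤ 2 ^ m := Nat.pow_le_pow_right (by norm_num) (by omega)
            have h4 : (2:ℕ) ^ (k + 2) = 4 * 2 ^ k := by ring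
            have : 0 < (2:ℕ) ^ k := by positivity
            omega
          have hlt2 : (2:ℕ) ^ m ≤ 2 ^ (m + 1) := Nat.pow_le_pow_right (by norm_num) (by omega)
          rw [← TA m Q t0 t1 hm (3 * 2 ^ k) (by omega)]
          have : nA m (3 * 2 ^ k) = 3 * 2 ^ (k + 1) := by
            unfold nA; rw [if_pos hlt]; ring
          rw [this]
      have htb : ∀ j, (3 * 2 ^ (m - 2)).testBit j = true ↔ j = m - 1 ∨ j = m - 2 := by
        intro j
        have : 3 * 2 ^ (m - 2) = 2 ^ (m - 1) + 2 ^ (m - 2) := by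
          obtain ⟨e1, e2, e3, e4, e5⟩ := pow_rel m hm
          omega
        have h3 : (2:ℕ) ^ (m - 2) < 2 ^ (m - 1) := Nat.pow_lt_pow_right (by norm_num) (by omega)
        have h4 := Nat.two_pow_add_eq_or_of_lt h3 1
        rw [mul_one] at h4
        rw [this, h4]
        simp only [Nat.testBit_or, Bool.or_eq_true, tb_pow]
      refine ⟨[1] ++ List.replicate (m - 2) 0, ?_⟩
      rw [key (m - 2) le_rfl]
      refine ⟨Or.inr ⟨rfl, rfl⟩, ?_, Or.inl ?_⟩
      · rintro q (⟨_, hq⟩ | ⟨hq, _⟩)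
        · simp only [htb] at hq
          right
          refine ⟨by omega, by omega, ?_⟩
          rcases hq with hq | hq
          · rw [hq]; exact hnq _ (by omega)
          · rw [hq]; exact hqm
        · exact Or.inl hq
      · rintro q (⟨_, hq⟩ | ⟨hq, _⟩)
        · simp only [htb] at hq; omega
        · omega
    · -- first position > 1 outside Q
      have hex : ∃ t, 2 ≤ t ∧ t ∉ Q := ⟨t0, h2, ht0⟩
      classical
      obtain ⟨t, ⟨ht2, htQ⟩, hmin⟩ : ∃ t, (2 ≤ t ∧ t ∉ Q) ∧ ∀ t', t' < t → ¬ (2 ≤ t' ∧ t' ∉ Q) :=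
        ⟨Nat.find hex, Nat.find_spec hex, fun t' ht' => Nat.find_min hex ht'⟩
      have htt0 : t ≤ t0 := by
        by_contra hlt
        exact hmin t0 (by omega) ⟨h2, ht0⟩
      have htm1 : t - 1 ∈ Q := by
        rcases Nat.lt_or_ge 2 t with h3 | h3
        · by_contra hn
          exact hmin (t - 1) (by omega) ⟨by omega, hn⟩
        · have : t - 1 = 1 := by omega
          rw [this]; exact hq1
      refine ⟨List.replicate (t - 1) 0 ++ [1], ?_⟩
      have h3 := T3 m Q t0 t1 (t - 1) (by omega) htm1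
      rw [NFA.eval_append_singleton, eval_pow m Q t0 t1 h1 (t - 1) (by omega), ← h3]
      refine ⟨Or.inr ⟨rfl, rfl⟩, ?_, ?_⟩
      · rintro q (⟨_, hq⟩ | ⟨hq, _⟩)
        · simp only [tb_pow_add_one] at hq
          right
          refine ⟨by omega, by omega, ?_⟩
          rcases hq with hq | hq
          · have : q.val = t := by omega
            rw [this]; exact htQ
          · rw [hq]; exact hq0
        · exact Or.inl hq
      · by_cases h4 : t = m - 3
        · right
          rintro q (⟨_, hq⟩ | ⟨hq, _⟩)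
          · simp only [tb_pow_add_one] at hq; omega
          · omega
        · left
          rintro q (⟨_, hq⟩ | ⟨hq, _⟩)
          · simp only [tb_pow_add_one] at hq; omega
          · omega

theorem gadget_aux : Good (m + 2) (cnt m Q t0 t1) := by
  obtain ⟨xw, hx1, hx2, hx3⟩ := exists_xw m Q t0 t1 hm h2 h0 h01 h1 hQ hcase
  obtain ⟨yo, P, hKo, hPm, hPr, hPl, hPlen⟩ : ∃ (yo : List (Fin 2)) (P : ℕ → Prop),
      Kd m Q t0 t1 yo P ∧ P m ∧ (∀ q ∈ (gad m Q t0 t1).eval xw, ¬ P q.val) ∧ ¬ P (m + 1) ∧ yo.length ≤ m - 1 := by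
    rcases hx3 with h | h
    · refine ⟨[1, 1], _, Kd_bb m Q t0 t1 hm, Or.inr rfl, ?_, by omega, by simp; omega⟩
      intro q hq hP
      have e1 := hx2 q hq
      have e2 := h q hq
      omega
    · refine ⟨[0], _, Kd_a m Q t0 t1 hm, Or.inr rfl, ?_, by omega, by simp; omega⟩
      intro q hq hP
      have e1 := hx2 q hq
      have e2 := h q hq
      omega
  set v : List (Fin 2) := List.replicate (m - 2) 0 ++ [1] with hv
  have hvK : Kd m Q t0 t1 v (fun i => i = 0) := Kd_zero m Q t0 t1 hm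
  have hvl : v.length = m - 1 := by rw [hv]; simp; omega
  let x : Fin (m + 2) → List (Fin 2) := fun i => if i.val ≤ m then List.replicate i.val 0 else xw
  let y : Fin (m + 2) → List (Fin 2) := fun i => if i.val < m then rdw m i.val else
    if i.val = m then yo else 1 :: v
  let PP : Fin (m + 2) → ℕ → Prop := fun i j => if i.val < m then j = i.val else
    if i.val = m then P j else (j ∈ Q ∨ j = m + 1)
  have hy : ∀ i, Kd m Q t0 t1 (y i) (PP i) := by
    intro i
    simp only [y, PP]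
    by_cases hi : i.val < m
    · simp only [if_pos hi]; exact Kd_rdw m Q t0 t1 hm i.val (by omega)
    · by_cases hi2 : i.val = m
      · simp only [if_neg hi, if_pos hi2]; exact hKo
      · simp only [if_neg hi, if_neg hi2]
        exact Kd_w m Q t0 t1 hm (fun q hq => by have := hQ q hq; omega)
  have hacc : ∀ (i : Fin (m + 2)) (u : List (Fin 2)), u ++ y i ∈ (gad m Q t0 t1).accepts ↔
      ∃ q ∈ (gad m Q t0 t1).eval u, PP i q.val := fun i u => mem_accepts_iff m Q t0 t1 (hy i) u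
  have hxe : ∀ i : Fin (m + 2), i.val ≤ m → x i = List.replicate i.val 0 := fun i hi => by
    simp only [x, if_pos hi]
  have hxe' : ∀ i : Fin (m + 2), ¬ i.val ≤ m → x i = xw := fun i hi => by simp only [x, if_neg hi]
  have hpair : ∀ i j : Fin (m + 2), i.val < j.val →
      x i ++ y j ∉ (gad m Q t0 t1).accepts ∨ x j ++ y i ∉ (gad m Q t0 t1).accepts := by
    intro i j hij
    have hi : i.val ≤ m := by omega
    rw [hacc, hacc, hxe i hi]
    have ei := (eval_apow m Q t0 t1 hm h1 i.val hi).1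
    by_cases hj : j.val ≤ m
    · -- x j y i rejected
      right
      rw [hxe j hj]
      have ej := (eval_apow m Q t0 t1 hm h1 j.val hj).1
      rintro ⟨q, hq, hP⟩
      have hP' : q.val = i.val := by
        simp only [PP] at hP
        rw [if_pos (by omega : i.val < m)] at hP
        exact hP
      have := ej q hq
      omega
    · rw [hxe' j hj]
      by_cases him : i.val < m
      · by_cases hiR : ∃ q ∈ (gad m Q t0 t1).eval xw, q.val = i.val
        · obtain ⟨q, hq, hqi⟩ := hiR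
          have e1 := hx2 q hq
          left
          rintro ⟨p, hp, hP⟩
          simp only [PP] at hP
          rw [if_neg (by omega), if_neg (by omega)] at hP
          have e2 := ei p hp
          rcases hP with hP | hP
          · rcases e1 with e1 | ⟨_, _, e1⟩
            · omega
            · rcases e2 with e2 | e2
              · rw [e2, ← hqi] at hP; exact e1 hP
              · have := hQ _ hP; omega
          · omega
        · right
          rintro ⟨p, hp, hP⟩
          apply hiR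
          refine ⟨p, hp, ?_⟩
          simp only [PP] at hP
          rw [if_pos him] at hP
          exact hP
      · right
        rintro ⟨p, hp, hP⟩
        simp only [PP] at hP
        rw [if_neg him, if_pos (by omega)] at hP
        exact hPr p hp hP
  refine ⟨gad m Q t0 t1, m - 1, v, x, y, ⟨0, rfl⟩, ?_, ?_, ?_, hvl, ?_, ?_, ?_, ?_⟩
  · rw [card_of_codes (gad m Q t0 t1) (G m Q t0 t1) (dec m) ?_ ?_ ?_ ?_, G_card m Q t0 t1 hm h2 h0 hQ]
    · refine ⟨(2 ^ 0, false), (mem_G m Q t0 t1 _).2 (Or.inl ⟨0, by omega, rfl⟩), ?_⟩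
      rw [dec_pow m 0 (by omega)]; rfl
    · exact G_closed m Q t0 t1 hm h2 h0 h01 h1 hQ hcase
    · exact G_reach m Q t0 t1 hm h2 h0 h01 h1 hQ hcase
    · exact G_dist m Q t0 t1 hm h2 h0 h01 h1 hQ hcase
  · intro w hw
    obtain ⟨q, hqa, hq⟩ := hw
    have hqa' : q.val + 1 = m := hqa
    have := eval_le m Q t0 t1 w q hq
    omega
  · have := (mem_accepts_iff m Q t0 t1 hvK []).2 ⟨0, rfl, rfl⟩
    simpa using this
  · intro u _
    obtain ⟨q, hq, hqm⟩ := exists_le m Q t0 t1 u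
    rcases Nat.lt_or_ge q.val m with h | h
    · refine ⟨rdw m q.val, (mem_accepts_iff m Q t0 t1 (Kd_rdw m Q t0 t1 hm q.val hqm) u).2 ⟨q, hq, rfl⟩, ?_⟩
      rw [rdw_length m hm q.val h]; omega
    · refine ⟨[0], (mem_accepts_iff m Q t0 t1 (Kd_a m Q t0 t1 hm) u).2 ⟨q, hq, Or.inr (by omega)⟩, ?_⟩
      simp; omega
  · intro i
    rw [hacc]
    by_cases hi : i.val ≤ m
    · rw [hxe i hi]
      refine ⟨_, (eval_apow m Q t0 t1 hm h1 i.val hi).2, ?_⟩
      simp only [PP]
      by_cases him : i.val < m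
      · rw [if_pos him]; trivial
      · rw [if_neg him, if_pos (by omega)]
        have : i.val = m := by omega
        rw [this]; exact hPm
    · rw [hxe' i hi]
      refine ⟨_, hx1, ?_⟩
      simp only [PP]
      rw [if_neg (by omega), if_neg (by omega)]
      exact Or.inr trivial
  · intro i j hij
    rcases Nat.lt_or_gt_of_ne (fun h => hij (Fin.ext h)) with h | h
    · exact hpair i j h
    · exact (hpair j i h).symm
  · intro i
    by_cases hi : i.val < m
    · left
      simp only [y, if_pos hi]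
      rw [rdw_length m hm i.val hi]; omega
    · by_cases hi2 : i.val = m
      · left
        simp only [y, if_neg hi, if_pos hi2]
        exact hPlen
      · right
        simp only [y, if_neg hi, if_neg hi2]
        refine ⟨by simp [hvl], ?_⟩
        rw [hxe' i (by omega)]
        rw [mem_accepts_iff m Q t0 t1 (Kd_om m Q t0 t1 hm) xw]
        rintro ⟨q, hq, hqm⟩
        have := hx2 q hq
        omega

end

theorem gadget (m : ℕ) (hm : 4 ≤ m) (Q : Finset ℕ) (t0 t1 : ℕ) (h2 : 2 ≤ t0) (h0 : t0 + 1 ≤ m)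
    (h01 : t0 ≤ t1) (h1 : t1 ≤ m) (hQ : ∀ q ∈ Q, q < t0)
    (hcase : (0 ∈ Q ∧ m - 2 ∉ Q ∧ (t0 + 1 = m ∨ t0 < t1)) ∨ (0 ∉ Q ∧ 1 ∈ Q ∧ t1 < m)) :
    Good (m + 2) (cnt m Q t0 t1) :=
  gadget_aux m Q t0 t1 hm h2 h0 h01 h1 hQ hcase

end Pool.Agent.H94.Magic
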