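import Pool.Agent.H94.Magic.Defs

/-!
# The gadget automaton

States `0, …, m+1`; chain `0 … m-1`, `ω = m`, `w = m+1`; start `0`, accepting `m-1`.
* `a(i) = {i+1} ∪ {w : i ≥ t1}`, `b(i) = {i+1} ∪ {0, w : i ∈ Q} ∪ {w : i ≥ t0}` for `i ≤ m-1`,
* `a(ω) = {0, m-1, ω, w}`, `b(ω) = {m-2, ω}`, `a(w) = {w}`, `b(w) = {0, w}`.
Letter `a` is `0`, letter `b` is `1`.
-/

set_option autoImplicit false

namespace Pool.Agent.H94.Magic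

/-- the transition relation of the gadget, on natural numbers -/
def tr (m : ℕ) (Q : Finset ℕ) (t0 t1 : ℕ) (i : ℕ) (c : Fin 2) (j : ℕ) : Prop :=
  (i < m ∧ c = 0 ∧ (j = i + 1 ∨ (t1 ≤ i ∧ j = m + 1))) ∨
  (i < m ∧ c = 1 ∧ (j = i + 1 ∨ (i ∈ Q ∧ (j = 0 ∨ j = m + 1)) ∨ (t0 ≤ i ∧ j = m + 1))) ∨
  (i = m ∧ c = 0 ∧ (j = 0 ∨ j = m - 1 ∨ j = m ∨ j = m + 1)) ∨
  (i = m ∧ c = 1 ∧ (j = m - 2 ∨ j = m)) ∨
  (i = m + 1 ∧ (j = m + 1 ∨ (c = 1 ∧ j = 0)))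

/-- the gadget NFA with `m + 2` states -/
def gad (m : ℕ) (Q : Finset ℕ) (t0 t1 : ℕ) : NFA (Fin 2) (Fin (m + 2)) where
  step i c := {j | tr m Q t0 t1 i.val c j.val}
  start := {0}
  accept := {j | j.val + 1 = m}

/-- the number of left quotients of the gadget automaton -/
def cnt (m : ℕ) (Q : Finset ℕ) (t0 t1 : ℕ) : ℕ :=
  (t1 + 1) + (if t1 = m then (if t0 + 1 = m then 2 else 1) else 0)
    + ∑ q ∈ Q, (2 ^ (m - q) - 1) + (2 ^ (m - t0) - 1)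
    + (if 0 ∈ Q then 0 else 2 ^ (m - 2)) + (if 1 ∈ Q then 0 else 2 ^ (m - 3))

end Pool.Agent.H94.Magic
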