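import Pool.Agent.H94.Magic.GadgetDefs

/-!
# Transitions of the gadget on codes
-/

set_option autoImplicit false

namespace Pool.Agent.H94.Magic

/-- the set of states with code `(X, f)`: the bits `≤ m` of `X`, and `w = m + 1` iff `f` -/
def dec (m : ℕ) (c : ℕ × Bool) : Set (Fin (m + 2)) :=
  {q | (q.val ≤ m ∧ c.1.testBit q.val = true) ∨ (q.val = m + 1 ∧ c.2 = true)}

theorem tb_two_mul (X j : ℕ) : (2 * X).testBit j = true ↔ 1 ≤ j ∧ X.testBit (j - 1) = true := by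
  cases j with
  | zero => simp
  | succ j =>
    rw [Nat.testBit_succ]
    have : 2 * X / 2 = X := by omega
    rw [this]; simp

theorem tb_two_mul_add (X j : ℕ) :
    (2 * X + 1).testBit j = true ↔ j = 0 ∨ (1 ≤ j ∧ X.testBit (j - 1) = true) := by
  cases j with
  | zero => simp
  | succ j =>
    rw [Nat.testBit_succ]
    have : (2 * X + 1) / 2 = X := by omega
    rw [this]; simp

theorem tb_pow (t j : ℕ) : (2 ^ t).testBit j = true ↔ j = t := by
  rw [Nat.testBit_two_pow]; simp [eq_comm]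

theorem tb_pow_add_one (t j : ℕ) : (2 ^ (t + 1) + 1).testBit j = true ↔ j = t + 1 ∨ j = 0 := by
  have : 2 ^ (t + 1) + 1 = 2 * 2 ^ t + 1 := by ring
  rw [this, tb_two_mul_add, tb_pow]
  omega

variable (m : ℕ) (Q : Finset ℕ) (t0 t1 : ℕ)

theorem dec_pow (t : ℕ) (ht : t ≤ m) : dec m (2 ^ t, false) = {⟨t, by omega⟩} := by
  ext q
  simp only [dec, tb_pow, Set.mem_setOf_eq, Set.mem_singleton_iff, Fin.ext_iff]
  constructor
  · rintro (⟨_, h⟩ | ⟨_, h⟩)
    · exact h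
    · exact absurd h (by simp)
  · intro h; exact Or.inl ⟨by omega, h⟩

theorem step_pow (t : ℕ) (ht : t ≤ m) (c : Fin 2) :
    (gad m Q t0 t1).stepSet (dec m (2 ^ t, false)) c = {j | tr m Q t0 t1 t c j.val} := by
  rw [dec_pow m t ht, NFA.stepSet_singleton]
  rfl

theorem T1 (t : ℕ) (ht : t < m) (h : t < t1) :
    dec m (2 ^ (t + 1), false) = (gad m Q t0 t1).stepSet (dec m (2 ^ t, false)) 0 := by
  rw [step_pow m Q t0 t1 t (by omega), dec_pow m (t + 1) (by omega)]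
  ext j
  simp only [Set.mem_singleton_iff, Fin.ext_iff, Set.mem_setOf_eq]
  constructor
  · intro hj; exact Or.inl ⟨ht, rfl, Or.inl hj⟩
  · intro hj
    rcases hj with ⟨h1, _, h | ⟨_, h⟩⟩ | ⟨_, h, _⟩ | ⟨h1, _, h | h | h | h⟩ | ⟨_, h, _⟩ | ⟨h1, h | ⟨h, _⟩⟩
    all_goals first | omega | exact absurd h (by decide)

theorem T2 (t : ℕ) (ht : t < m) (h : t1 ≤ t) :
    dec m (2 ^ (t + 1), true) = (gad m Q t0 t1).stepSet (dec m (2 ^ t, false)) 0 := by
  rw [step_pow m Q t0 t1 t (by omega)]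
  ext j
  simp only [dec, tb_pow, Set.mem_setOf_eq]
  constructor
  · rintro (⟨_, hj⟩ | ⟨hj, _⟩)
    · exact Or.inl ⟨ht, rfl, Or.inl hj⟩
    · exact Or.inl ⟨ht, rfl, Or.inr ⟨h, hj⟩⟩
  · intro hj
    rcases hj with ⟨h1, _, h | ⟨_, h⟩⟩ | ⟨_, h, _⟩ | ⟨h1, _, h | h | h | h⟩ | ⟨_, h, _⟩ | ⟨h1, h | ⟨h, _⟩⟩
    all_goals first | omega | exact absurd h (by decide) | exact Or.inr ⟨h, trivial⟩

theorem T3 (t : ℕ) (ht : t < m) (h : t ∈ Q) :
    dec m (2 ^ (t + 1) + 1, true) = (gad m Q t0 t1).stepSet (dec m (2 ^ t, false)) 1 := by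
  rw [step_pow m Q t0 t1 t (by omega)]
  ext j
  simp only [dec, tb_pow_add_one, Set.mem_setOf_eq]
  constructor
  · rintro (⟨_, hj | hj⟩ | ⟨hj, _⟩)
    · exact Or.inr (Or.inl ⟨ht, rfl, Or.inl hj⟩)
    · exact Or.inr (Or.inl ⟨ht, rfl, Or.inr (Or.inl ⟨h, Or.inl hj⟩)⟩)
    · exact Or.inr (Or.inl ⟨ht, rfl, Or.inr (Or.inl ⟨h, Or.inr hj⟩)⟩)
  · intro hj
    rcases hj with ⟨_, h, _⟩ | ⟨h1, _, h | ⟨_, h | h⟩ | ⟨_, h⟩⟩ | ⟨_, h, _⟩ | ⟨h1, _, h | h⟩ | ⟨h1, h | ⟨_, h⟩⟩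
    · exact absurd h (by decide)
    · exact Or.inl ⟨by omega, Or.inl h⟩
    · exact Or.inl ⟨by omega, Or.inr h⟩
    · exact Or.inr ⟨h, trivial⟩
    · exact Or.inr ⟨h, trivial⟩
    · exact absurd h (by decide)
    all_goals omega

theorem T4 (t : ℕ) (ht : t < m) (h : t ∉ Q) (h0 : t0 ≤ t) :
    dec m (2 ^ (t + 1), true) = (gad m Q t0 t1).stepSet (dec m (2 ^ t, false)) 1 := by
  rw [step_pow m Q t0 t1 t (by omega)]
  ext j
  simp only [dec, tb_pow, Set.mem_setOf_eq]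
  constructor
  · rintro (⟨_, hj⟩ | ⟨hj, _⟩)
    · exact Or.inr (Or.inl ⟨ht, rfl, Or.inl hj⟩)
    · exact Or.inr (Or.inl ⟨ht, rfl, Or.inr (Or.inr ⟨h0, hj⟩)⟩)
  · intro hj
    rcases hj with ⟨_, h, _⟩ | ⟨h1, _, h | ⟨h', h | h⟩ | ⟨_, h⟩⟩ | ⟨_, h, _⟩ | ⟨h1, _, h | h⟩ | ⟨h1, h | ⟨_, h⟩⟩
    · exact absurd h (by decide)
    · exact Or.inl ⟨by omega, h⟩
    · exact absurd h' (by assumption)
    · exact absurd h' (by assumption)
    · exact Or.inr ⟨h, trivial⟩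
    · exact absurd h (by decide)
    all_goals omega

theorem T5 (t : ℕ) (ht : t < m) (h : t ∉ Q) (h0 : t < t0) :
    dec m (2 ^ (t + 1), false) = (gad m Q t0 t1).stepSet (dec m (2 ^ t, false)) 1 := by
  rw [step_pow m Q t0 t1 t (by omega), dec_pow m (t + 1) (by omega)]
  ext j
  simp only [Set.mem_singleton_iff, Fin.ext_iff, Set.mem_setOf_eq]
  constructor
  · intro hj; exact Or.inr (Or.inl ⟨ht, rfl, Or.inl hj⟩)
  · intro hj
    rcases hj with ⟨_, h, _⟩ | ⟨h1, _, h | ⟨h', h | h⟩ | ⟨_, h⟩⟩ | ⟨_, h, _⟩ | ⟨h1, _, h | h⟩ | ⟨h1, h | ⟨_, h⟩⟩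
    · exact absurd h (by decide)
    · exact h
    · exact absurd h' (by assumption)
    · exact absurd h' (by assumption)
    · omega
    · exact absurd h (by decide)
    all_goals omega

/-! ## Sets containing `w` -/

/-- successor code of `(X, true)` under `a` -/
def nA (m X : ℕ) : ℕ := if X < 2 ^ m then 2 * X else (2 * X) % 2 ^ m ||| 2 ^ 0 ||| 2 ^ (m - 1) ||| 2 ^ m

/-- successor code of `(X, true)` under `b` -/
def nB (m X : ℕ) : ℕ := if X < 2 ^ m then 2 * X + 1 else (2 * X) % 2 ^ m ||| 2 ^ 0 ||| 2 ^ (m - 2) ||| 2 ^ m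

theorem tb_nA (X j : ℕ) (hX : X < 2 ^ (m + 1)) (hj : j ≤ m) :
    (nA m X).testBit j = true ↔ (1 ≤ j ∧ X.testBit (j - 1) = true) ∨
      (X.testBit m = true ∧ (j = 0 ∨ j = m - 1 ∨ j = m)) := by
  unfold nA
  split_ifs with h
  · rw [tb_two_mul]
    have : X.testBit m = false := Nat.testBit_lt_two_pow h
    simp [this]
  · have hb : X.testBit m = true := by
      rw [Nat.testBit_eq_decide_div_mod_eq]
      have : X / 2 ^ m = 1 := by
        rw [Nat.div_eq_iff (by positivity)]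
        rw [pow_succ] at hX
        omega
      simp [this]
    simp only [Nat.testBit_or, Bool.or_eq_true, tb_pow, Nat.testBit_mod_two_pow, Bool.and_eq_true,
      decide_eq_true_eq, tb_two_mul, hb, true_and]
    constructor
    · rintro (((⟨_, h1, h2⟩ | h1) | h1) | h1)
      · exact Or.inl ⟨h1, h2⟩
      · exact Or.inr (Or.inl h1)
      · exact Or.inr (Or.inr (Or.inl h1))
      · exact Or.inr (Or.inr (Or.inr h1))
    · rintro (⟨h1, h2⟩ | h1 | h1 | h1)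
      · rcases Nat.lt_or_ge j m with h3 | h3
        · exact Or.inl (Or.inl (Or.inl ⟨h3, h1, h2⟩))
        · exact Or.inr (by omega)
      · exact Or.inl (Or.inl (Or.inr h1))
      · exact Or.inl (Or.inr h1)
      · exact Or.inr h1

theorem tb_nB (X j : ℕ) (hX : X < 2 ^ (m + 1)) (hj : j ≤ m) :
    (nB m X).testBit j = true ↔ j = 0 ∨ (1 ≤ j ∧ X.testBit (j - 1) = true) ∨
      (X.testBit m = true ∧ (j = m - 2 ∨ j = m)) := by
  unfold nB
  split_ifs with h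
  · rw [tb_two_mul_add]
    have : X.testBit m = false := Nat.testBit_lt_two_pow h
    simp [this]
  · have hb : X.testBit m = true := by
      rw [Nat.testBit_eq_decide_div_mod_eq]
      have : X / 2 ^ m = 1 := by
        rw [Nat.div_eq_iff (by positivity)]
        rw [pow_succ] at hX
        omega
      simp [this]
    simp only [Nat.testBit_or, Bool.or_eq_true, tb_pow, Nat.testBit_mod_two_pow, Bool.and_eq_true,
      decide_eq_true_eq, tb_two_mul, hb, true_and]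
    constructor
    · rintro (((⟨_, h1, h2⟩ | h1) | h1) | h1)
      · exact Or.inr (Or.inl ⟨h1, h2⟩)
      · exact Or.inl h1
      · exact Or.inr (Or.inr (Or.inl h1))
      · exact Or.inr (Or.inr (Or.inr h1))
    · rintro (h1 | ⟨h1, h2⟩ | h1 | h1)
      · exact Or.inl (Or.inl (Or.inr h1))
      · rcases Nat.lt_or_ge j m with h3 | h3
        · exact Or.inl (Or.inl (Or.inl ⟨h3, h1, h2⟩))
        · exact Or.inr (by omega)
      · exact Or.inl (Or.inr h1)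
      · exact Or.inr h1

theorem TA (hm : 4 ≤ m) (X : ℕ) (hX : X < 2 ^ (m + 1)) :
    dec m (nA m X, true) = (gad m Q t0 t1).stepSet (dec m (X, true)) 0 := by
  ext q
  rw [NFA.mem_stepSet]
  constructor
  · rintro (⟨hq, hb⟩ | ⟨hq, _⟩)
    · rw [tb_nA m X q.val hX hq] at hb
      rcases hb with ⟨h1, h2⟩ | ⟨h1, h2⟩
      · by_cases hqm : q.val - 1 < m
        · exact ⟨⟨q.val - 1, by omega⟩, Or.inl ⟨by simp; omega, h2⟩,
            Or.inl ⟨hqm, rfl, Or.inl (by simp; omega)⟩⟩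
        · omega
      · refine ⟨⟨m, by omega⟩, Or.inl ⟨le_rfl, h1⟩, Or.inr (Or.inr (Or.inl ⟨rfl, rfl, ?_⟩))⟩
        omega
    · exact ⟨⟨m + 1, by omega⟩, Or.inr ⟨rfl, rfl⟩, Or.inr (Or.inr (Or.inr (Or.inr ⟨rfl, Or.inl hq⟩)))⟩
  · rintro ⟨p, hp, hpq⟩
    have hpq' : tr m Q t0 t1 p.val 0 q.val := hpq
    rcases Nat.lt_or_ge m q.val with hq | hq
    · exact Or.inr ⟨by omega, rfl⟩
    · left
      refine ⟨hq, ?_⟩
      rw [tb_nA m X q.val hX hq]
      rcases hpq' with ⟨h1, _, h | ⟨_, h⟩⟩ | ⟨_, h, _⟩ | ⟨h1, _, h | h | h | h⟩ | ⟨_, h, _⟩ | ⟨h1, h | ⟨h, _⟩⟩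
      · rcases hp with ⟨_, hb⟩ | ⟨hp, _⟩
        · left; refine ⟨by omega, ?_⟩
          rw [h]; simpa using hb
        · omega
      · omega
      · exact absurd h (by decide)
      · rcases hp with ⟨_, hb⟩ | ⟨hp, _⟩
        · right; rw [h1] at hb; exact ⟨hb, by omega⟩
        · omega
      · rcases hp with ⟨_, hb⟩ | ⟨hp, _⟩
        · right; rw [h1] at hb; exact ⟨hb, by omega⟩
        · omega
      · rcases hp with ⟨_, hb⟩ | ⟨hp, _⟩
        · right; rw [h1] at hb; exact ⟨hb, by omega⟩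
        · omega
      · omega
      · exact absurd h (by decide)
      · omega
      · exact absurd h (by decide)

theorem TB (hm : 4 ≤ m) (X : ℕ) (hX : X < 2 ^ (m + 1)) :
    dec m (nB m X, true) = (gad m Q t0 t1).stepSet (dec m (X, true)) 1 := by
  ext q
  rw [NFA.mem_stepSet]
  constructor
  · rintro (⟨hq, hb⟩ | ⟨hq, _⟩)
    · rw [tb_nB m X q.val hX hq] at hb
      rcases hb with h0 | ⟨h1, h2⟩ | ⟨h1, h2⟩
      · exact ⟨⟨m + 1, by omega⟩, Or.inr ⟨rfl, rfl⟩,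
          Or.inr (Or.inr (Or.inr (Or.inr ⟨rfl, Or.inr ⟨rfl, h0⟩⟩)))⟩
      · by_cases hqm : q.val - 1 < m
        · exact ⟨⟨q.val - 1, by omega⟩, Or.inl ⟨by simp; omega, h2⟩,
            Or.inr (Or.inl ⟨hqm, rfl, Or.inl (by simp; omega)⟩)⟩
        · omega
      · refine ⟨⟨m, by omega⟩, Or.inl ⟨le_rfl, h1⟩, Or.inr (Or.inr (Or.inr (Or.inl ⟨rfl, rfl, ?_⟩)))⟩
        omega
    · exact ⟨⟨m + 1, by omega⟩, Or.inr ⟨rfl, rfl⟩, Or.inr (Or.inr (Or.inr (Or.inr ⟨rfl, Or.inl hq⟩)))⟩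
  · rintro ⟨p, hp, hpq⟩
    have hpq' : tr m Q t0 t1 p.val 1 q.val := hpq
    rcases Nat.lt_or_ge m q.val with hq | hq
    · exact Or.inr ⟨by omega, rfl⟩
    · left
      refine ⟨hq, ?_⟩
      rw [tb_nB m X q.val hX hq]
      rcases hpq' with ⟨_, h, _⟩ | ⟨h1, _, h | ⟨h', h | h⟩ | ⟨_, h⟩⟩ | ⟨_, h, _⟩ | ⟨h1, _, h | h⟩ | ⟨h1, h | ⟨_, h⟩⟩
      · exact absurd h (by decide)
      · rcases hp with ⟨_, hb⟩ | ⟨hp, _⟩
        · right; left; refine ⟨by omega, ?_⟩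
          rw [h]; simpa using hb
        · omega
      · exact Or.inl h
      · omega
      · omega
      · exact absurd h (by decide)
      · rcases hp with ⟨_, hb⟩ | ⟨hp, _⟩
        · right; right; rw [h1] at hb; exact ⟨hb, by omega⟩
        · omega
      · rcases hp with ⟨_, hb⟩ | ⟨hp, _⟩
        · right; right; rw [h1] at hb; exact ⟨hb, by omega⟩
        · omega
      · omega
      · exact Or.inl h

end Pool.Agent.H94.Magic
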